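import Pool.Agent.Sturm69.Lib

/-!
Tail invariance of the dimension of the spectrum, every phase and every real coupling.
-/

set_option autoImplicit false

namespace Pool.Agent.Sturm69

open Pool.Agent.Sturm82 Pool.Agent.Sturm82.Spec

theorem tail_pos {lam : ℝ} (hlam : 0 < lam) {α β : ℝ} (hα : α ∈ Set.Ioo (0 : ℝ) 1)
    (hβ : β ∈ Set.Ioo (0 : ℝ) 1) (hαi : Irrational α) (hβi : Irrational β)
    (hl : ∀ m : ℕ, ∃ n, m ≤ dig α n ∧ m ≤ dig α (n + 1))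
    (ht : ∃ s t : ℕ, ∀ j, dig α (s + j) = dig β (t + j)) (θ θ' : ℝ) :
    dimH (SpR lam α θ) = dimH (SpR lam β θ') := by
  obtain ⟨s, t, hst⟩ := ht
  rw [eq_Sig hlam hα.1 hα.2 hαi, eq_Sig hlam hβ.1 hβ.2 hβi]
  exact dimH_tail_eq hlam hα hβ hαi hβi (s := s) (t := t) hst hl

theorem tail_all (lam : ℝ) {α β : ℝ} (hα : α ∈ Set.Ioo (0 : ℝ) 1)
    (hβ : β ∈ Set.Ioo (0 : ℝ) 1) (hαi : Irrational α) (hβi : Irrational β)
    (hl : ∀ m : ℕ, ∃ n, m ≤ dig α n ∧ m ≤ dig α (n + 1))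
    (ht : ∃ s t : ℕ, ∀ j, dig α (s + j) = dig β (t + j)) (θ θ' : ℝ) :
    dimH (SpR lam α θ) = dimH (SpR lam β θ') := by
  rcases lt_trichotomy lam 0 with h | h | h
  · rw [← dim_neg lam α θ, ← dim_neg lam β θ']
    exact tail_pos (lam := -lam) (by linarith) hα hβ hαi hβi hl ht θ θ'
  · rw [h, zero_eq α θ β θ']
  · exact tail_pos h hα hβ hαi hβi hl ht θ θ'

end Pool.Agent.Sturm69
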