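import Pool.Agent.Sturm69.Zero

/-!
A full branch of the line `(2, y, y - lam)` across the level-`p` annulus, and its crossing with a leaf.
-/

set_option autoImplicit false

namespace Pool.Agent.Sturm69

open Pool.Agent.Sturm82 Set Complex Topology

/-! ### A real-analysis lemma -/

lemma surj_of_neg {f : ℝ → ℝ} (hf : ContDiff ℝ 1 f) {t1 t0 t2 : ℝ} (h10 : t1 < t0) (h02 : t0 < t2)
    (hneg : ∀ t ∈ Ioo t1 t2, deriv f t < 0) (h0 : |f t0| < 2) (h1 : 2 ≤ |f t1|) (h2 : 2 ≤ |f t2|) :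
    ∀ c : ℝ, |c| < 2 → ∃ t ∈ Ioo t1 t2, f t = c := by
  have hanti : StrictAntiOn f (Icc t1 t2) := by
    apply strictAntiOn_of_deriv_neg (convex_Icc _ _) hf.continuous.continuousOn
    intro t ht
    rw [interior_Icc] at ht
    exact hneg t ht
  have h12 : t1 < t2 := h10.trans h02
  have m0 : t0 ∈ Icc t1 t2 := ⟨h10.le, h02.le⟩
  have ha := hanti (left_mem_Icc.mpr h12.le) m0 h10
  have hb := hanti m0 (right_mem_Icc.mpr h12.le) h02
  have h0' := abs_lt.mp h0
  have h1' : 2 ≤ f t1 := by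
    rcases le_abs.mp h1 with h | h
    · exact h
    · linarith
  have h2' : f t2 ≤ -2 := by
    rcases le_abs.mp h2 with h | h
    · linarith
    · linarith
  intro c hc
  have hc' := abs_lt.mp hc
  obtain ⟨t, ht, htc⟩ := intermediate_value_Icc' h12.le hf.continuous.continuousOn
    (show c ∈ Icc (f t2) (f t1) from ⟨by linarith, by linarith⟩)
  refine ⟨t, ⟨lt_of_le_of_ne ht.1 ?_, lt_of_le_of_ne ht.2 ?_⟩, htc⟩
  · rintro rfl
    linarith
  · rintro rfl
    linarith

/-- a maximal interval on which `|f| < 2`, parametrised so that `f` decreases -/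
lemma exists_interval {f : ℝ → ℝ} (hf : ContDiff ℝ 1 f) (hne : ∀ y, |f y| < 2 → deriv f y ≠ 0)
    {y0 : ℝ} (h0 : |f y0| < 2) (hl : ∃ y, y ≤ y0 ∧ 2 ≤ |f y|) (hr : ∃ y, y0 ≤ y ∧ 2 ≤ |f y|) :
    ∃ s t1 t2 : ℝ, |s| = 1 ∧ t1 < t2 ∧ (∀ t ∈ Ioo t1 t2, |f (s * t)| < 2) ∧
      (∀ t ∈ Ioo t1 t2, s * deriv f (s * t) < 0) ∧
      (∀ c : ℝ, |c| < 2 → ∃ t ∈ Ioo t1 t2, f (s * t) = c) := by
  have hfc : Continuous fun y => |f y| := hf.continuous.abs
  set S1 : Set ℝ := {y | y ≤ y0 ∧ 2 ≤ |f y|} with hS1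
  set S2 : Set ℝ := {y | y0 ≤ y ∧ 2 ≤ |f y|} with hS2
  have hc1 : IsClosed S1 := (isClosed_Iic (a := y0)).inter (isClosed_le continuous_const hfc)
  have hc2 : IsClosed S2 := (isClosed_Ici (a := y0)).inter (isClosed_le continuous_const hfc)
  have hb1 : BddAbove S1 := ⟨y0, fun y hy => hy.1⟩
  have hb2 : BddBelow S2 := ⟨y0, fun y hy => hy.1⟩
  set y1 := sSup S1 with hy1
  set y2 := sInf S2 with hy2
  have hm1 : y1 ∈ S1 := hc1.csSup_mem hl hb1
  have hm2 : y2 ∈ S2 := hc2.csInf_mem hr hb2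
  have h10 : y1 < y0 := by
    refine lt_of_le_of_ne hm1.1 ?_
    intro h
    have := hm1.2
    rw [h] at this
    linarith
  have h02 : y0 < y2 := by
    refine lt_of_le_of_ne hm2.1 ?_
    intro h
    have := hm2.2
    rw [← h] at this
    linarith
  have hin : ∀ y ∈ Ioo y1 y2, |f y| < 2 := by
    intro y hy
    by_contra hc
    push Not at hc
    rcases le_total y y0 with h | h
    · exact absurd (le_csSup hb1 (show y ∈ S1 from ⟨h, hc⟩)) (not_le.mpr hy.1)
    · exact absurd (csInf_le hb2 (show y ∈ S2 from ⟨h, hc⟩)) (not_le.mpr hy.2)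
  have hdiff : ∀ y, HasDerivAt f (deriv f y) y := fun y =>
    (hf.differentiable (by norm_num) y).hasDerivAt
  rcases hasDerivWithinAt_forall_lt_or_forall_gt_of_forall_ne (convex_Ioo y1 y2)
    (fun y _ => (hdiff y).hasDerivWithinAt) (m := 0) (fun y hy => hne y (hin y hy)) with h | h
  · refine ⟨1, y1, y2, by simp, h10.trans h02, ?_, ?_, ?_⟩
    · intro t ht
      rw [one_mul]; exact hin t ht
    · intro t ht
      rw [one_mul, one_mul]; exact h t ht
    · intro c hc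
      simp only [one_mul]
      exact surj_of_neg hf h10 h02 h h0 hm1.2 hm2.2 c hc
  · refine ⟨-1, -y2, -y1, by simp, by linarith, ?_, ?_, ?_⟩
    · intro t ht
      exact hin _ ⟨by linarith [ht.2], by linarith [ht.1]⟩
    · intro t ht
      have := h (-1 * t) ⟨by linarith [ht.2], by linarith [ht.1]⟩
      linarith
    · intro c hc
      have hg : ContDiff ℝ 1 (fun y => -f y) := hf.neg
      have hgd : ∀ t ∈ Ioo y1 y2, deriv (fun y => -f y) t < 0 := by
        intro t ht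
        have h3 : deriv (fun y => -f y) t = -deriv f t := (hdiff t).fun_neg.deriv
        rw [h3]
        linarith [h t ht]
      obtain ⟨t, ht, htc⟩ := surj_of_neg hg h10 h02 hgd (by rw [abs_neg]; exact h0)
        (by rw [abs_neg]; exact hm1.2) (by rw [abs_neg]; exact hm2.2) (-c) (by rw [abs_neg]; exact hc)
      refine ⟨-t, ⟨by linarith [ht.2], by linarith [ht.1]⟩, ?_⟩
      rw [show -1 * -t = t by ring]
      linarith

/-! ### Data of the line at level `p` -/

lemma fst_bound {lam : ℝ} (hlam : 0 < lam) {b : ℕ → ℕ} (hb : ∀ n, 1 ≤ b n) (p : ℕ) {y : ℝ}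
    (h : |(Gv lam b p y).2.1| ≤ 2) : |(Gv lam b p y).1| ≤ lam + 4 := by
  cases p with
  | zero =>
    have : (Gv lam b 0 y).1 = 2 := rfl
    rw [this, abs_two]
    linarith
  | succ p =>
    set u := Gv lam b p y with hu
    have e1 : (Gv lam b (p + 1) y).1 = u.2.1 := rfl
    have e2 : (Gv lam b (p + 1) y).2.1 = tseq u.1 u.2.1 u.2.2 (b p) := rfl
    rw [e1]
    rw [e2] at h
    by_cases hy : |u.2.1| ≤ 2
    · linarith
    push Not at hy
    have hx : |u.1| ≤ 2 := by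
      cases p with
      | zero =>
        have : u.1 = 2 := rfl
        rw [this, abs_two]
      | succ p =>
        have h3 := nest hb (v := (2, y, y - lam)) (Or.inl (by simp)) (n := p) (N := p + 1 + 1)
          (by exact h) (by omega)
        rcases h3 with h3 | h3
        · exact h3
        · exact absurd h3 (not_le.mpr hy)
    have hw : |u.2.2| ≤ 2 := by
      by_contra hc
      push Not at hc
      have h4 := tseq_mono (x := u.1) (y := u.2.1) (z := u.2.2) hy.le (j := 0)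
        (by simp only [tseq_zero, zero_add, tseq_one]; linarith) (Nat.zero_le 1) (hb p)
      rw [tseq_one] at h4
      linarith
    have hs : surf u = 4 + lam ^ 2 := surf_Gv lam b p y
    simp only [surf] at hs
    have hx2 := abs_le.mp hx
    have hw2 := abs_le.mp hw
    have hsq : (u.2.1 - u.1 * u.2.2 / 2) ^ 2 = lam ^ 2 + (4 - u.1 ^ 2) * (4 - u.2.2 ^ 2) / 4 := by
      linear_combination hs
    have hx4 : 0 ≤ u.1 ^ 2 ∧ u.1 ^ 2 ≤ 4 := ⟨sq_nonneg _, by nlinarith⟩
    have hw4 : 0 ≤ u.2.2 ^ 2 ∧ u.2.2 ^ 2 ≤ 4 := ⟨sq_nonneg _, by nlinarith⟩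
    have hsq2 : (u.2.1 - u.1 * u.2.2 / 2) ^ 2 ≤ (lam + 2) ^ 2 := by
      rw [hsq]
      nlinarith [mul_nonneg (sub_nonneg.mpr hx4.2) (sub_nonneg.mpr hw4.2), mul_nonneg hx4.1 hw4.1,
        mul_nonneg hx4.1 (sub_nonneg.mpr hw4.2), mul_nonneg (sub_nonneg.mpr hx4.2) hw4.1]
    have h5 : |u.2.1 - u.1 * u.2.2 / 2| ≤ lam + 2 := abs_le_of_sq_le_sq hsq2 (by linarith)
    have h6 : |u.1 * u.2.2 / 2| ≤ 2 := by
      rw [abs_div, abs_mul, abs_two]
      have := mul_le_mul hx hw (abs_nonneg _) (by norm_num)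
      linarith
    have h7 : u.2.1 = (u.2.1 - u.1 * u.2.2 / 2) + u.1 * u.2.2 / 2 := by ring
    rw [h7]
    refine (abs_add_le _ _).trans ?_
    linarith

lemma deriv_ne {lam : ℝ} (hlam : 0 < lam) {b : ℕ → ℕ} (hb : ∀ n, 1 ≤ b n) (p : ℕ) {y : ℝ}
    (hy : |(Gv lam b p y).2.1| < 2) : deriv (fun e => (Gv lam b p e).2.1) y ≠ 0 := by
  obtain ⟨θ, ψ, θ', ψ', hθs, hψs, hθ0, hev, hθ'0, h5, h6⟩ := gamma_data hlam hb p hy
  have hvc : ContDiff ℝ 1 (fun e => (Gv lam b p e).2.1) :=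
    contDiff_fst.comp (contDiff_snd.comp (contDiff_Gv lam b p))
  have hd : HasDerivAt (fun e => (Gv lam b p e).2.1) (deriv (fun e => (Gv lam b p e).2.1) y) y :=
    (hvc.differentiable (by norm_num) y).hasDerivAt
  intro h0
  rw [h0] at hd
  have h7 := hasDerivAt_arccos_half hd hy
  have h8 : HasDerivAt (fun s => Real.arccos ((Gv lam b p s).2.1 / 2)) θ' y := by
    refine hθs.hasDerivAt.congr_of_eventuallyEq ?_
    filter_upwards [hev] with e he
    exact he.2.1.symm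
  have h9 := h7.unique h8
  rw [neg_zero, zero_div] at h9
  exact hθ'0 h9.symm

/-- a full branch of the line across the annulus at level `p` -/
lemma exists_branch {lam : ℝ} (hlam : 0 < lam) {b : ℕ → ℕ} (hb : ∀ n, 1 ≤ b n) (p : ℕ) {y0 : ℝ}
    (hy0 : |(Gv lam b p y0).2.1| < 2) :
    ∃ s t1 t2 : ℝ, |s| = 1 ∧ t1 < t2 ∧ (∀ t ∈ Ioo t1 t2, |(Gv lam b p (s * t)).2.1| < 2) ∧
      (∀ t ∈ Ioo t1 t2, s * deriv (fun e => (Gv lam b p e).2.1) (s * t) < 0) ∧
      (∀ c : ℝ, |c| < 2 → ∃ t ∈ Ioo t1 t2, (Gv lam b p (s * t)).2.1 = c) := by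
  have hvc : ContDiff ℝ 1 (fun e => (Gv lam b p e).2.1) :=
    contDiff_fst.comp (contDiff_snd.comp (contDiff_Gv lam b p))
  refine exists_interval hvc (fun y hy => deriv_ne hlam hb p hy) hy0 ?_ ?_
  · refine ⟨min y0 (-3), min_le_left _ _, (X_gt_neg hlam hb ?_ p).le⟩
    exact lt_of_le_of_lt (min_le_right _ _) (by norm_num)
  · refine ⟨max y0 (lam + 3), le_max_left _ _, (X_gt hlam hb ?_ p).le⟩
    exact lt_of_lt_of_le (by linarith) (le_max_right _ _)

lemma Sg_flip {v w : ℝ × ℝ × ℝ} (h : Sg v w) : Sg (flip v) (flip w) := by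
  obtain ⟨e, f, he, hf, rfl⟩ := h
  refine ⟨f, e, hf, he, ?_⟩
  simp only [Pool.Agent.Sturm82.flip, Prod.mk.injEq, true_and]
  ring

/-- distance of an angle to the multiples of `π` -/
lemma near_multiple (x : ℝ) : ∃ k : ℤ, |x - k * Real.pi| ≤ Real.pi / 2 * |Real.sin x| := by
  have hpi := Real.pi_pos
  refine ⟨round (x / Real.pi), ?_⟩
  set k := round (x / Real.pi) with hk
  have h1 := abs_sub_round (x / Real.pi)
  rw [← hk] at h1
  set r := x - k * Real.pi with hr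
  have h2 : |r| ≤ Real.pi / 2 := by
    have e : r = (x / Real.pi - k) * Real.pi := by rw [hr]; field_simp
    rw [e, abs_mul, abs_of_pos hpi]
    nlinarith
  have h3 : |Real.sin x| = |Real.sin r| := by
    have e : x = r + k * Real.pi := by rw [hr]; ring
    rw [e, Real.sin_add_int_mul_pi, abs_mul]
    have : |(-1 : ℝ) ^ k| = 1 := by rw [abs_zpow]; simp
    rw [this, one_mul]
  rw [h3]
  have h4 := Real.mul_abs_le_abs_sin h2
  have h5 : Real.pi / 2 * (2 / Real.pi * |r|) ≤ Real.pi / 2 * |Real.sin r| :=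
    mul_le_mul_of_nonneg_left h4 (by positivity)
  have h6 : Real.pi / 2 * (2 / Real.pi * |r|) = |r| := by field_simp
  linarith

end Pool.Agent.Sturm69
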