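import Pool.Agent.Sturm69.Branch

/-!
Crossing of a steep leaf with a full branch of another line (up to the sign symmetry).
-/

set_option autoImplicit false

namespace Pool.Agent.Sturm69

open Pool.Agent.Sturm82 Set Complex Topology

theorem exists_cross2 {lam : ℝ} (hlam : 0 < lam) {b : ℕ → ℕ} (hb : ∀ n, 1 ≤ b n) {p : ℕ}
    {s t1 t2 : ℝ} (hs : |s| = 1) (ht12 : t1 < t2)
    (hin : ∀ t ∈ Ioo t1 t2, |(Gv lam b p (s * t)).2.1| < 2)
    (hneg : ∀ t ∈ Ioo t1 t2, s * deriv (fun e => (Gv lam b p e).2.1) (s * t) < 0)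
    (hsur : ∀ c : ℝ, |c| < 2 → ∃ t ∈ Ioo t1 t2, (Gv lam b p (s * t)).2.1 = c)
    {c : ℕ → ℕ} (hc : ∀ n, 1 ≤ c n) (hcb : ∀ j, b (p + j) = c j) {K : ℕ} {c0 η : ℝ}
    (h0 : 0 < c0) (h1 : c0 < Real.pi) (hη0 : 0 < η) (hη1 : η < 1)
    (hm : 6 * Real.pi * (lam + 4) ≤ η * (lam * c 0 - 4)) {θe : ℝ}
    (hθe : |θe - c0| < η * (Real.sin c0 / 2) / 2) {c' : ℝ} (hc' : |c'| < 2) {σ : ℂ → ℂ}
    (hL : IsLeaf lam c 0 K c0 c' σ) {v : ℝ × ℝ × ℝ}
    (hσ : Wc lam θe (σ θe) = tmap ofRealHom v) (hv1 : |v.1| ≤ lam + 4) :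
    ∃ (q : ℝ) (g : ℝ × ℝ × ℝ), |q - c0| < η * (Real.sin c0 / 2) ∧
      Wc lam q (σ q) = tmap ofRealHom (orb b g p) ∧ |g.1| = 2 ∧ surf g = 4 + lam ^ 2 ∧
      |g.2.1| ≤ max |t1| |t2| ∧ (orb b g (p + K + 1)).2.1 = c' := by
  obtain ⟨hb0, hb1, hb2⟩ := ball_facts h0 h1
  set ρ := Real.sin c0 / 2 with hρ
  have hsc : 0 < Real.sin c0 := by linarith
  have hpi := Real.pi_pos
  obtain ⟨ψ, hψ⟩ := hL.angle hlam hc h0 h1 hc'
  rw [← hρ] at hψ
  set m : ℝ := (c 0 : ℝ) with hmdef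
  have hlm : 0 < lam * m - 4 := by
    by_contra hcon
    push Not at hcon
    have h3 : η * (lam * m - 4) ≤ 0 := mul_nonpos_of_nonneg_of_nonpos hη0.le hcon
    have h4 : 0 < 6 * Real.pi * (lam + 4) := by positivity
    linarith
  have hm4 : 0 < m - 4 / lam := by
    rw [sub_pos, div_lt_iff₀ hlam]; linarith
  -- the branch
  set V : ℝ → ℝ × ℝ × ℝ := fun t => Gv lam b p (s * t) with hV
  have hst : ∀ t : ℝ, HasDerivAt (fun t : ℝ => s * t) s t := fun t => by
    simpa using (hasDerivAt_id t).const_mul s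
  have hGd : ∀ y, HasDerivAt (Gv lam b p) (deriv (Gv lam b p) y) y := fun y =>
    ((contDiff_Gv lam b p (n := 1)).differentiable (by norm_num) y).hasDerivAt
  have hVd : ∀ t, HasDerivAt V (s • deriv (Gv lam b p) (s * t)) t := fun t =>
    (hGd (s * t)).scomp t (hst t)
  have hfc : ContDiff ℝ 1 (fun e => (Gv lam b p e).2.1) :=
    contDiff_fst.comp (contDiff_snd.comp (contDiff_Gv lam b p))
  have hfd : ∀ t, HasDerivAt (fun t => (V t).2.1)
      (s * deriv (fun e => (Gv lam b p e).2.1) (s * t)) t := by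
    intro t
    have h3 : HasDerivAt (fun e => (Gv lam b p e).2.1)
        (deriv (fun e => (Gv lam b p e).2.1) (s * t)) (s * t) :=
      (hfc.differentiable (by norm_num) _).hasDerivAt
    exact h3.scomp t (hst t)
  have hsf : ∀ t ∈ Ioo t1 t2, surf (V t) = 4 + lam ^ 2 := fun t _ => surf_Gv lam b p (s * t)
  obtain ⟨Ψ, hΨ⟩ := exists_angle_path hlam ht12 (fun t _ => hVd t) hsf hin
  set Θ : ℝ → ℝ := fun t => Real.arccos ((V t).2.1 / 2) with hΘ
  set Θ' : ℝ → ℝ := fun t => -(s * deriv (fun e => (Gv lam b p e).2.1) (s * t)) /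
    √(4 - (V t).2.1 ^ 2) with hΘ'
  have hΘd : ∀ t ∈ Ioo t1 t2, HasDerivAt Θ (Θ' t) t := fun t ht =>
    hasDerivAt_arccos_half (hfd t) (hin t ht)
  have hsq : ∀ t ∈ Ioo t1 t2, 0 < √(4 - (V t).2.1 ^ 2) := by
    intro t ht
    apply Real.sqrt_pos.mpr
    have := abs_lt.mp (hin t ht)
    nlinarith
  have hΘpos : ∀ t ∈ Ioo t1 t2, 0 < Θ' t := by
    intro t ht
    apply div_pos
    · have := hneg t ht
      linarith
    · exact hsq t ht
  have hcos : ∀ t ∈ Ioo t1 t2, Real.cos (Θ t) = (V t).2.1 / 2 := by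
    intro t ht
    have := abs_lt.mp (hin t ht)
    exact Real.cos_arccos (by linarith) (by linarith)
  have hsin : ∀ t ∈ Ioo t1 t2, 0 < Real.sin (Θ t) := by
    intro t ht
    simp only [hΘ]
    rw [Real.sin_arccos]
    apply Real.sqrt_pos.mpr
    have := abs_lt.mp (hin t ht)
    nlinarith
  have hback : ∀ t ∈ Ioo t1 t2, orb (rdig b p) (tau lam (Θ t) (Ψ t)) p =
      (s * t, 2, 2 * (s * t) - (s * t - lam)) := by
    intro t ht
    have h3 : tau lam (Θ t) (Ψ t) = Pool.Agent.Sturm82.flip (V t) := by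
      rw [(hΨ t ht).1, Pool.Agent.Sturm82.flip_flip]
    rw [h3, hV]
    simp only [Gv]
    rw [orb_rev0]
    rfl
  have hslope : ∀ t ∈ Ioo t1 t2, deriv Ψ t ≤ 2 / lam * Θ' t := by
    intro t ht
    have hF : HasDerivAt (fun r => (orb (rdig b p) (tau lam (Θ r) (Ψ r)) p).2.1) 0 t := by
      refine (hasDerivAt_const t (2 : ℝ)).congr_of_eventuallyEq ?_
      filter_upwards [isOpen_Ioo.mem_nhds ht] with r hr
      rw [hback r hr]
    have h3 := (slope_past hlam (hΘd t ht) (hΨ t ht).2.hasDerivAt (hsin t ht).ne'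
      (a := rdig b p) (fun n => hb _) p hF (by rw [hback t ht]; norm_num)).1 (hΘpos t ht).le
    exact h3.trans (mul_le_mul_of_nonneg_right (sig0_le hlam _) (hΘpos t ht).le)
  -- surjectivity of the angle
  have hΘsur : ∀ q : ℝ, 0 < q → q < Real.pi → ∃ t ∈ Ioo t1 t2, Θ t = q := by
    intro q hq0 hq1
    have h3 : |2 * Real.cos q| < 2 := by
      have hsq2 := Real.sin_sq_add_cos_sq q
      have hs2 := Real.sin_pos_of_pos_of_lt_pi hq0 hq1
      rw [abs_lt]
      constructor <;> nlinarith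
    obtain ⟨t, ht, htc⟩ := hsur _ h3
    refine ⟨t, ht, ?_⟩
    simp only [hΘ, hV]
    rw [htc, mul_div_cancel_left₀ _ (two_ne_zero), Real.arccos_cos hq0.le hq1.le]
  have hΘmono : StrictMonoOn Θ (Ioo t1 t2) := by
    apply strictMonoOn_of_deriv_pos (convex_Ioo _ _)
    · exact fun t ht => (hΘd t ht).continuousAt.continuousWithinAt
    · intro t ht
      rw [interior_Ioo] at ht
      rw [(hΘd t ht).deriv]
      exact hΘpos t ht
  set D : ℝ → ℝ := fun t => ψ (Θ t) - Ψ t with hD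
  have hDd : ∀ t ∈ Ioo t1 t2, |Θ t - c0| < ρ →
      HasDerivAt D ((deriv σ (Θ t) / σ (Θ t)).im * Θ' t - deriv Ψ t) t := by
    intro t ht h3
    exact ((hψ (Θ t) h3).2.1.comp t (hΘd t ht)).sub (hΨ t ht).2.hasDerivAt
  -- the main monotonicity
  have hmain : ∀ ta ∈ Ioo t1 t2, ∀ tb ∈ Ioo t1 t2, ta ≤ tb → |Θ ta - c0| < ρ → |Θ tb - c0| < ρ →
      (m - 4 / lam) * (Θ tb - Θ ta) ≤ D tb - D ta ∧ ContinuousOn D (Icc ta tb) ∧
      ∀ t ∈ Icc ta tb, t ∈ Ioo t1 t2 ∧ Θ ta ≤ Θ t ∧ Θ t ≤ Θ tb := by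
    intro ta hta tb htb hab ha hbb
    have hsub : ∀ t ∈ Icc ta tb, t ∈ Ioo t1 t2 ∧ Θ ta ≤ Θ t ∧ Θ t ≤ Θ tb := by
      intro t ht
      have ht' : t ∈ Ioo t1 t2 := ⟨hta.1.trans_le ht.1, ht.2.trans_lt htb.2⟩
      exact ⟨ht', hΘmono.monotoneOn hta ht' ht.1, hΘmono.monotoneOn ht' htb ht.2⟩
    have hwin : ∀ t ∈ Icc ta tb, |Θ t - c0| < ρ := by
      intro t ht
      obtain ⟨h3, h4, h5⟩ := hsub t ht
      have h6 := abs_lt.mp ha
      have h7 := abs_lt.mp hbb
      rw [abs_lt]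
      constructor <;> linarith
    have hcont : ContinuousOn D (Icc ta tb) := fun t ht =>
      (hDd t (hsub t ht).1 (hwin t ht)).continuousAt.continuousWithinAt
    refine ⟨?_, hcont, hsub⟩
    have hmon : MonotoneOn (fun t => D t - (m - 4 / lam) * Θ t) (Icc ta tb) := by
      apply monotoneOn_of_deriv_nonneg (convex_Icc _ _)
      · refine hcont.sub (ContinuousOn.mul continuousOn_const ?_)
        exact fun t ht => (hΘd t (hsub t ht).1).continuousAt.continuousWithinAt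
      · intro t ht
        rw [interior_Icc] at ht
        have ht' : t ∈ Icc ta tb := ⟨ht.1.le, ht.2.le⟩
        exact ((hDd t (hsub t ht').1 (hwin t ht')).sub
          ((hΘd t (hsub t ht').1).const_mul _)).differentiableAt.differentiableWithinAt
      · intro t ht
        rw [interior_Icc] at ht
        have ht' : t ∈ Icc ta tb := ⟨ht.1.le, ht.2.le⟩
        have hti := (hsub t ht').1
        have e : (fun t => D t - (m - 4 / lam) * Θ t) = D - fun t => (m - 4 / lam) * Θ t := rfl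
        rw [e, ((hDd t hti (hwin t ht')).sub ((hΘd t hti).const_mul (m - 4 / lam))).deriv]
        have h3 : m - 2 / lam ≤ (deriv σ (Θ t) / σ (Θ t)).im := (hψ _ (hwin t ht')).2.2.2.2
        have h4 := hslope t hti
        have h5 := hΘpos t hti
        have h6 := mul_le_mul_of_nonneg_right h3 h5.le
        have h7 : 4 / lam = 2 / lam + 2 / lam := by ring
        rw [h7]
        nlinarith
    have := hmon (left_mem_Icc.mpr hab) (right_mem_Icc.mpr hab) hab
    simp only at this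
    linarith
  -- the starting parameter
  have hηρ : η * ρ < ρ := by nlinarith
  have hηρ0 : 0 < η * ρ := by positivity
  have hθρ : |θe - c0| < ρ := by linarith
  have hball : ∀ q : ℝ, |q - c0| < ρ → 0 < q ∧ q < Real.pi := by
    intro q hq
    have := abs_lt.mp hq
    constructor <;> linarith
  obtain ⟨te, hte, hΘe⟩ := hΘsur θe (hball θe hθρ).1 (hball θe hθρ).2
  -- both curves are near the corners
  have hsb := sin_Icc_bound (c0 := c0) hθρ.le
  have hsθ : 0 < Real.sin θe := by linarith [hsb.1]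
  have hC : lam / (3 * Real.sin c0) ≤ Cf lam θe := by
    refine le_trans ?_ (le_trans (le_abs_self _) (abs_Sf_le_Cf lam θe))
    unfold Sf
    apply div_le_div_of_nonneg_left hlam.le (by positivity)
    linarith [hsb.2]
  have hC0 : 0 < Cf lam θe := Cf_pos _ _
  set β : ℝ := 3 * (lam + 4) * Real.sin c0 / (2 * lam) with hβ
  have hcosb : ∀ x : ℝ, |2 * Cf lam θe * Real.cos x| ≤ lam + 4 → |Real.cos x| ≤ β := by
    intro x hx
    rw [abs_mul, abs_of_pos (by positivity : 0 < 2 * Cf lam θe)] at hx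
    have h3 : 2 * (lam / (3 * Real.sin c0)) * |Real.cos x| ≤ lam + 4 :=
      le_trans (mul_le_mul_of_nonneg_right (by linarith) (abs_nonneg _)) hx
    have h4 : |Real.cos x| = 2 * (lam / (3 * Real.sin c0)) * |Real.cos x| *
        (3 * Real.sin c0 / (2 * lam)) := by field_simp
    rw [h4, hβ]
    have h5 : 0 ≤ 3 * Real.sin c0 / (2 * lam) := by positivity
    refine (mul_le_mul_of_nonneg_right h3 h5).trans (le_of_eq ?_)
    ring
  have hvflip : v = Pool.Agent.Sturm82.flip (tau lam θe (ψ θe)) := by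
    apply tmap_inj
    rw [← (hψ θe hθρ).2.2.1, hσ]
  have hcos1 : |Real.cos (ψ θe)| ≤ β := by
    apply hcosb
    rw [hvflip, flip_tau] at hv1
    exact hv1
  have hcos2 : |Real.cos (Ψ te)| ≤ β := by
    apply hcosb
    have h3 := fst_bound hlam hb p (hin te hte).le
    have h4 : Gv lam b p (s * te) = Pool.Agent.Sturm82.flip (tau lam (Θ te) (Ψ te)) := (hΨ te hte).1
    rw [h4, flip_tau, hΘe] at h3
    exact h3
  obtain ⟨k, hk⟩ := near_multiple (D te)
  have hsinD : |Real.sin (D te)| ≤ 2 * β := by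
    simp only [hD]
    rw [hΘe, Real.sin_sub]
    refine (abs_sub _ _).trans ?_
    rw [abs_mul, abs_mul]
    have h3 := Real.abs_sin_le_one (ψ θe)
    have h4 := Real.abs_sin_le_one (Ψ te)
    have h5 : |Real.sin (ψ θe)| * |Real.cos (Ψ te)| ≤ 1 * β :=
      mul_le_mul h3 hcos2 (abs_nonneg _) zero_le_one
    have h6 : |Real.cos (ψ θe)| * |Real.sin (Ψ te)| ≤ β * 1 :=
      mul_le_mul hcos1 h4 (abs_nonneg _) ((abs_nonneg _).trans hcos1)
    linarith
  set L : ℝ := η * ρ / 2 with hLdef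
  have hgain : Real.pi * β ≤ (m - 4 / lam) * L := by
    have e1 : Real.pi * β = 6 * Real.pi * (lam + 4) * (Real.sin c0 / (4 * lam)) := by
      rw [hβ]; field_simp; ring
    have e2 : (m - 4 / lam) * L = η * (lam * m - 4) * (Real.sin c0 / (4 * lam)) := by
      rw [hLdef, hρ]; field_simp; ring
    rw [e1, e2]
    exact mul_le_mul_of_nonneg_right hm (by positivity)
  have hk' : |D te - k * Real.pi| ≤ (m - 4 / lam) * L := by
    refine hk.trans (le_trans ?_ hgain)
    have := mul_le_mul_of_nonneg_left hsinD (by positivity : (0 : ℝ) ≤ Real.pi / 2)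
    linarith
  have hk2 := abs_le.mp hk'
  have hθe' := abs_lt.mp hθe
  have hL0 : 0 < L := by positivity
  have hLL : L + L = η * ρ := by rw [hLdef]; ring
  obtain ⟨t, ht, htw, htD⟩ : ∃ t ∈ Ioo t1 t2, |Θ t - c0| < η * ρ ∧ D t = k * Real.pi := by
    rcases le_or_gt (D te) (k * Real.pi) with hle | hgt
    · have hq : |θe + L - c0| < η * ρ := by
        rw [abs_lt]; constructor <;> linarith
      have hq' := hball _ (hq.trans hηρ)
      obtain ⟨tb, htb, hΘb⟩ := hΘsur _ hq'.1 hq'.2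
      have hlt : te < tb := by
        rw [← hΘmono.lt_iff_lt hte htb, hΘe, hΘb]; linarith
      obtain ⟨h3, h4, h5⟩ := hmain te hte tb htb hlt.le (by rw [hΘe]; exact hθρ)
        (by rw [hΘb]; exact hq.trans hηρ)
      rw [hΘe, hΘb, add_sub_cancel_left] at h3
      obtain ⟨t, ht, htc⟩ := intermediate_value_Icc hlt.le h4
        (show (k : ℝ) * Real.pi ∈ Icc (D te) (D tb) from ⟨hle, by linarith⟩)
      obtain ⟨h6, h7, h8⟩ := h5 t ht
      rw [hΘe] at h7
      rw [hΘb] at h8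
      exact ⟨t, h6, by rw [abs_lt]; constructor <;> linarith, htc⟩
    · have hq : |θe - L - c0| < η * ρ := by
        rw [abs_lt]; constructor <;> linarith
      have hq' := hball _ (hq.trans hηρ)
      obtain ⟨ta, hta, hΘa⟩ := hΘsur _ hq'.1 hq'.2
      have hlt : ta < te := by
        rw [← hΘmono.lt_iff_lt hta hte, hΘe, hΘa]; linarith
      obtain ⟨h3, h4, h5⟩ := hmain ta hta te hte hlt.le (by rw [hΘa]; exact hq.trans hηρ)
        (by rw [hΘe]; exact hθρ)
      rw [hΘe, hΘa, sub_sub_cancel] at h3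
      obtain ⟨t, ht, htc⟩ := intermediate_value_Icc hlt.le h4
        (show (k : ℝ) * Real.pi ∈ Icc (D ta) (D te) from ⟨by linarith, hgt.le⟩)
      obtain ⟨h6, h7, h8⟩ := h5 t ht
      rw [hΘa] at h7
      rw [hΘe] at h8
      exact ⟨t, h6, by rw [abs_lt]; constructor <;> linarith, htc⟩
  -- the crossing point
  have htρ : |Θ t - c0| < ρ := htw.trans hηρ
  have hψt : ψ (Θ t) = Ψ t + k * Real.pi := by
    simp only [hD] at htD
    linarith
  set vq : ℝ × ℝ × ℝ := Pool.Agent.Sturm82.flip (tau lam (Θ t) (ψ (Θ t))) with hvq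
  have hSg1 : Sg (V t) vq := by
    refine ⟨(-1 : ℝ) ^ k, 1, by rw [abs_zpow]; simp, by simp, ?_⟩
    rw [(hΨ t ht).1, hvq, flip_tau, flip_tau, hψt]
    have e3 : Ψ t + k * Real.pi - Θ t = (Ψ t - Θ t) + k * Real.pi := by ring
    rw [e3, Real.cos_add_int_mul_pi, Real.cos_add_int_mul_pi]
    refine Prod.ext ?_ (Prod.ext ?_ ?_)
    · simp only; ring
    · simp only; ring
    · simp only; ring
  set g : ℝ × ℝ × ℝ := Pool.Agent.Sturm82.flip (orb (rdig b p) (Pool.Agent.Sturm82.flip vq) p) with hg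
  have hg1 : orb b g p = vq := orb_rev0' b vq p
  have hSg2 : Sg (2, s * t, s * t - lam) g := by
    have h3 := Sg_flip ((Sg_flip hSg1).orb (rdig b p) p)
    have h4 : Pool.Agent.Sturm82.flip (orb (rdig b p) (Pool.Agent.Sturm82.flip (V t)) p) =
        (2, s * t, s * t - lam) := by
      rw [hV]
      simp only [Gv]
      rw [orb_rev0, Pool.Agent.Sturm82.flip_flip]
    rw [h4] at h3
    exact h3
  have hsurf : surf g = 4 + lam ^ 2 := by
    rw [← surf_orb b g p, hg1, hvq, surf_flip]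
    exact surf_tau (hsin t ht).ne' _
  refine ⟨Θ t, g, htw, ?_, ?_, hsurf, ?_, ?_⟩
  · rw [hg1]; exact (hψ (Θ t) htρ).2.2.1
  · obtain ⟨e, f, he, hf, hgeq⟩ := hSg2
    rw [hgeq]
    simp only
    rw [abs_mul, he, one_mul, abs_two]
  · rw [hSg2.abs_eq]
    simp only
    rw [abs_mul, hs, one_mul]
    exact abs_le_max_abs_abs ht.1.le ht.2.le
  · have e4 : p + K + 1 = p + (K + 1) := by ring
    rw [e4, orb_add, hg1]
    have e5 : (fun j => b (p + j)) = fun j => c (0 + j) := by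
      funext j
      rw [hcb, zero_add]
    rw [e5]
    exact (hψ (Θ t) htρ).2.2.2.1

end Pool.Agent.Sturm69
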