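import Pool.Agent.Sturm69.Phase

/-!
The sign of the coupling: the Jacobi operator with potential `-V` is unitarily equivalent to the
negative of the one with potential `V`.
-/

set_option autoImplicit false

namespace Pool.Agent.Sturm69

open Pool.Agent.Sturm82 Pool.Agent.Sturm82.Spec

/-- alternating signs -/
def alt (n : ℤ) : ℝ := if Even n then 1 else -1

theorem abs_alt (n : ℤ) : |alt n| = 1 := by
  unfold alt
  split_ifs <;> simp

theorem alt_succ (n : ℤ) : alt (n + 1) = -alt n := by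
  unfold alt
  by_cases h : Even n
  · rw [if_pos h, if_neg (by rw [Int.even_add_one]; exact not_not.mpr h)]
  · rw [if_neg h, if_pos (by rw [Int.even_add_one]; exact h)]
    simp

theorem alt_pred (n : ℤ) : alt (n - 1) = -alt n := by
  have := alt_succ (n - 1)
  rw [sub_add_cancel] at this
  rw [this, neg_neg]

theorem reflect (V : ℤ → ℝ) (T T' : L2 →L[ℂ] L2)
    (hT : ∀ (u : L2) (n : ℤ), (T u) n = u (n + 1) + u (n - 1) + (V n : ℂ) * u n)
    (hT' : ∀ (u : L2) (n : ℤ), (T' u) n = u (n + 1) + u (n - 1) + ((-V n : ℝ) : ℂ) * u n) (E : ℝ)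
    (hE : (E : ℂ) ∈ spectrum ℂ T) : ((-E : ℝ) : ℂ) ∈ spectrum ℂ T' := by
  apply mem_spectrum_of_approx
  intro δ hδ
  by_contra hcon
  push Not at hcon
  refine not_mem_spectrum_of_bound T V hT E δ hδ ?_ hE
  intro u hfin
  by_cases hu0 : u = 0
  · rw [hu0]; simp
  obtain ⟨S, hS⟩ := exists_mul alt 1 (fun n => (abs_alt n).le)
  have hnorm : ∀ w : L2, ‖S w‖ = ‖w‖ := by
    intro w
    have h : ‖S w‖ ^ 2 = ‖w‖ ^ 2 := by
      rw [L2_norm_sq, L2_norm_sq]
      congr 1
      funext n
      rw [hS, norm_mul, Complex.norm_real, Real.norm_eq_abs, abs_alt, one_mul]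
    exact (pow_left_inj₀ (norm_nonneg _) (norm_nonneg _) two_ne_zero).mp h
  have hcomm : T' (S u) - ((-E : ℝ) : ℂ) • S u = -(S (T u - (E : ℂ) • u)) := by
    apply Subtype.ext
    funext n
    have e1 : (-(S (T u - (E : ℂ) • u))) n =
        -((alt n : ℂ) * ((T u) n - (E : ℂ) * u n)) := by
      have e3 : (-(S (T u - (E : ℂ) • u))) n = -((S (T u - (E : ℂ) • u)) n) := rfl
      rw [e3, hS]
      rfl
    have e2 : (T' (S u) - ((-E : ℝ) : ℂ) • S u) n =
        (T' (S u)) n - ((-E : ℝ) : ℂ) * (S u) n := rfl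
    rw [e1, e2, hT', hT, hS, hS, hS, alt_succ, alt_pred]
    push_cast
    ring
  have hSu : S u ≠ 0 := by
    intro h
    apply hu0
    rw [← norm_eq_zero, ← hnorm, h, norm_zero]
  have := hcon (S u) hSu
  rw [hcomm, norm_neg, hnorm, hnorm] at this
  exact this.le

end Pool.Agent.Sturm69
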