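import Pool.Agent.Sturm69.Tail
import Pool.Agent.Sturm69.Refl

/-!
The spectra of all Sturmian Hamiltonians: every phase, every real coupling.
-/

set_option autoImplicit false

open MeasureTheory

namespace Pool.Agent.Sturm69

open Pool.Agent.Sturm82 Pool.Agent.Sturm82.Spec

/-- `T` is the Sturmian Hamiltonian -/
def HamP (lam α θ : ℝ) (T : L2 →L[ℂ] L2) : Prop :=
  ∀ (u : L2) (n : ℤ), (T u) n = u (n + 1) + u (n - 1) + ((lam * pot α θ n : ℝ) : ℂ) * u n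

/-- the real spectrum -/
def SpR (lam α θ : ℝ) : Set ℝ :=
  {E | ∃ T : L2 →L[ℂ] L2, HamP lam α θ T ∧ (E : ℂ) ∈ spectrum ℂ T}

theorem abs_lam_pot_le (lam α θ : ℝ) (n : ℤ) : |lam * pot α θ n| ≤ |lam| := by
  rw [abs_mul]
  exact mul_le_of_le_one_right (abs_nonneg _) (abs_pot_le α θ n)

theorem exists_unique_ham (lam α θ : ℝ) : ∃! T : L2 →L[ℂ] L2, HamP lam α θ T := by
  obtain ⟨T, hT⟩ := exists_ham (fun n => lam * pot α θ n) |lam| (abs_lam_pot_le lam α θ)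
  exact ⟨T, hT, fun T' hT' => ham_unique (fun n => lam * pot α θ n) T' T hT' hT⟩

theorem phase_subset (lam : ℝ) {α : ℝ} (hα : Irrational α) (θ θ' : ℝ) :
    SpR lam α θ ⊆ SpR lam α θ' := by
  rintro E ⟨T, hT, hE⟩
  obtain ⟨T', hT', -⟩ := exists_unique_ham lam α θ'
  refine ⟨T', hT', transfer _ _ (fun N => ?_) T T' hT hT' E hE⟩
  obtain ⟨m, hm⟩ := window hα θ θ' N
  refine ⟨m, fun n hn => ?_⟩
  show lam * pot α θ' (n + m) = lam * pot α θ n
  rw [hm n hn]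

theorem phase_eq (lam : ℝ) {α : ℝ} (hα : Irrational α) (θ θ' : ℝ) :
    SpR lam α θ = SpR lam α θ' :=
  Set.Subset.antisymm (phase_subset lam hα θ θ') (phase_subset lam hα θ' θ)

theorem zero_phase {lam : ℝ} {α : ℝ} (h0 : 0 < α) (h1 : α < 1) {T : L2 →L[ℂ] L2}
    (hT : HamP lam α 0 T) : ∀ (u : L2) (n : ℤ), (T u) n = u (n + 1) + u (n - 1)
      + ((lam * ((⌊((n:ℝ) + 1) * α⌋ - ⌊(n:ℝ) * α⌋ : ℤ) : ℝ) : ℝ) : ℂ) * u n := by
  intro u n
  rw [hT u n, pot_zero h0 h1]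

theorem eq_real_spectrum {lam α θ : ℝ} {T : L2 →L[ℂ] L2} (hT : HamP lam α θ T) :
    SpR lam α θ = {E : ℝ | (E : ℂ) ∈ spectrum ℂ T} := by
  obtain ⟨T0, hT0, huniq⟩ := exists_unique_ham lam α θ
  ext E
  constructor
  · rintro ⟨T', hT', hE⟩
    rw [huniq T' hT', ← huniq T hT] at hE
    exact hE
  · intro hE
    exact ⟨T, hT, hE⟩

/-- the explicit description of the spectrum -/
theorem eq_Sig {lam : ℝ} (hlam : 0 < lam) {α : ℝ} (h0 : 0 < α) (h1 : α < 1) (hα : Irrational α)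
    (θ : ℝ) : SpR lam α θ = Sig lam (dig α) := by
  obtain ⟨T, hT, -⟩ := exists_unique_ham lam α 0
  rw [phase_eq lam hα θ 0, eq_real_spectrum hT,
    Spec.spectrum_eq_Sig lam hlam α h0 h1 hα T (zero_phase h0 h1 hT)]

theorem neg_subset (lam α θ : ℝ) : ∀ E ∈ SpR lam α θ, -E ∈ SpR (-lam) α θ := by
  rintro E ⟨T, hT, hE⟩
  obtain ⟨T', hT', -⟩ := exists_unique_ham (-lam) α θ
  refine ⟨T', hT', reflect (fun n => lam * pot α θ n) T T' hT (fun u n => ?_) E hE⟩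
  rw [hT' u n, neg_mul]

theorem neg_eq (lam α θ : ℝ) :
    SpR (-lam) α θ = (IsometryEquiv.neg ℝ) '' SpR lam α θ := by
  ext E
  simp only [Set.mem_image, IsometryEquiv.neg_apply]
  constructor
  · intro h
    have := neg_subset (-lam) α θ E h
    rw [neg_neg] at this
    exact ⟨-E, this, neg_neg E⟩
  · rintro ⟨E', hE', rfl⟩
    exact neg_subset lam α θ E' hE'

theorem dim_neg (lam α θ : ℝ) : dimH (SpR (-lam) α θ) = dimH (SpR lam α θ) := by
  rw [neg_eq, IsometryEquiv.dimH_image]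

theorem zero_eq (α θ β θ' : ℝ) : SpR 0 α θ = SpR 0 β θ' := by
  have h : ∀ T : L2 →L[ℂ] L2, HamP 0 α θ T ↔ HamP 0 β θ' T := by
    intro T
    unfold HamP
    simp only [zero_mul]
  unfold SpR
  simp only [h]

/-- existence, uniqueness, self-adjointness, real spectrum -/
theorem ham_facts (lam α θ : ℝ) : ∃ T : L2 →L[ℂ] L2, HamP lam α θ T ∧
    (∀ T' : L2 →L[ℂ] L2, HamP lam α θ T' → T' = T) ∧ IsSelfAdjoint T ∧
    spectrum ℂ T = (fun E : ℝ => (E : ℂ)) '' SpR lam α θ := by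
  obtain ⟨T, hT, huniq⟩ := exists_unique_ham lam α θ
  refine ⟨T, hT, huniq, ham_selfAdjoint (fun n => lam * pot α θ n) T hT, ?_⟩
  ext z
  constructor
  · intro hz
    have him := ham_real (fun n => lam * pot α θ n) T hT z hz
    have hzr : ((z.re : ℝ) : ℂ) = z := by
      apply Complex.ext
      · simp
      · simpa using him.symm
    exact ⟨z.re, ⟨T, hT, by rw [hzr]; exact hz⟩, hzr⟩
  · rintro ⟨E, ⟨T', hT', hE⟩, rfl⟩
    rw [huniq T' hT'] at hE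
    exact hE

theorem ae_pos {lam : ℝ} (hlam : 0 < lam) : ∃ d : ENNReal,
    ∀ᵐ α ∂(volume.restrict (Set.Ioo (0 : ℝ) 1)), ∀ θ : ℝ, dimH (SpR lam α θ) = d := by
  obtain ⟨d, hd⟩ := final_of_thmB
    (fun lam hlam a ha h2 hinf => dimH_shift_le hlam a ha h2 hinf) lam hlam
  refine ⟨d, ?_⟩
  filter_upwards [hd, Fin.ae_pat] with α h1 h2 θ
  obtain ⟨hα, hαi, -⟩ := h2
  obtain ⟨T, hT, -⟩ := exists_unique_ham lam α 0
  rw [phase_eq lam hαi θ 0, eq_real_spectrum hT]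
  exact h1 T (zero_phase hα.1 hα.2 hT)

theorem ae_all (lam : ℝ) : ∃ d : ENNReal,
    ∀ᵐ α ∂(volume.restrict (Set.Ioo (0 : ℝ) 1)), ∀ θ : ℝ, dimH (SpR lam α θ) = d := by
  rcases lt_trichotomy lam 0 with h | h | h
  · obtain ⟨d, hd⟩ := ae_pos (show 0 < -lam by linarith)
    refine ⟨d, ?_⟩
    filter_upwards [hd] with α hα θ
    rw [← hα θ, dim_neg]
  · refine ⟨dimH (SpR 0 0 0), Filter.Eventually.of_forall fun α θ => ?_⟩
    rw [h, zero_eq α θ 0 0]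
  · exact ae_pos h

theorem ae_real (lam : ℝ) : ∃ d : ℝ, 0 ≤ d ∧ d ≤ 1 ∧
    ∀ᵐ α ∂(volume.restrict (Set.Ioo (0 : ℝ) 1)), Irrational α ∧ ∀ θ : ℝ,
      dimH (SpR lam α θ) = ENNReal.ofReal d := by
  obtain ⟨d, hd⟩ := ae_all lam
  have hle : d ≤ 1 := by
    have hne : (volume.restrict (Set.Ioo (0 : ℝ) 1)) ≠ 0 := by
      rw [Ne, Measure.restrict_eq_zero, Real.volume_Ioo]
      simp
    have : (ae (volume.restrict (Set.Ioo (0 : ℝ) 1))).NeBot := ae_neBot.mpr hne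
    obtain ⟨α, hα⟩ := hd.exists
    rw [← hα 0]
    calc dimH (SpR lam α 0) ≤ dimH (Set.univ : Set ℝ) := dimH_mono (Set.subset_univ _)
      _ = 1 := Real.dimH_univ
  have hfin : d ≠ ⊤ := ne_top_of_le_ne_top ENNReal.one_ne_top hle
  refine ⟨d.toReal, ENNReal.toReal_nonneg, ?_, ?_⟩
  · have := ENNReal.toReal_mono ENNReal.one_ne_top hle
    simpa using this
  · rw [ENNReal.ofReal_toReal hfin]
    filter_upwards [hd, Fin.ae_pat] with α h1 h2
    exact ⟨h2.2.1, h1⟩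

end Pool.Agent.Sturm69
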