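import Pool.Agent.Sturm82.PkgFinal
import Pool.Agent.Sturm82.ThmB

/-!
Sturmian Hamiltonians with an arbitrary phase: existence, self-adjointness, independence of the
spectrum of the phase.
-/

set_option autoImplicit false

namespace Pool.Agent.Sturm69

open Pool.Agent.Sturm82 Pool.Agent.Sturm82.Spec

/-! ### Bounded operators -/

theorem exists_perm (e : ℤ ≃ ℤ) : ∃ S : L2 →L[ℂ] L2, ∀ (u : L2) (n : ℤ), (S u) n = u (e n) := by
  have hs : ∀ u : L2, Summable fun n => ‖u (e n)‖ ^ 2 := fun u =>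
    (e.summable_iff (f := fun n => ‖u n‖ ^ 2)).mpr (L2_hasSum_sq u).summable
  have hm : ∀ u : L2, Memℓp (E := fun _ : ℤ => ℂ) (fun n => u (e n)) 2 := by
    intro u
    apply memℓp_gen
    simpa using hs u
  let S0 : L2 →ₗ[ℂ] L2 :=
    { toFun := fun u => ⟨fun n => u (e n), hm u⟩
      map_add' := fun u v => by
        apply Subtype.ext
        funext n
        rfl
      map_smul' := fun c u => by
        apply Subtype.ext
        funext n
        rfl }
  refine ⟨S0.mkContinuous 1 ?_, fun u n => rfl⟩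
  intro u
  rw [one_mul]
  have h : ‖S0 u‖ ^ 2 = ‖u‖ ^ 2 := by
    rw [L2_norm_sq, L2_norm_sq]
    exact e.tsum_eq (fun n => ‖u n‖ ^ 2)
  exact (pow_le_pow_iff_left₀ (norm_nonneg _) (norm_nonneg _) two_ne_zero).mp h.le

theorem exists_mul (V : ℤ → ℝ) (C : ℝ) (hC : ∀ n, |V n| ≤ C) :
    ∃ S : L2 →L[ℂ] L2, ∀ (u : L2) (n : ℤ), (S u) n = (V n : ℂ) * u n := by
  have hC0 : 0 ≤ C := (abs_nonneg (V 0)).trans (hC 0)
  have hle : ∀ (u : L2) (n : ℤ), ‖(V n : ℂ) * u n‖ ^ 2 ≤ C ^ 2 * ‖u n‖ ^ 2 := by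
    intro u n
    rw [norm_mul, Complex.norm_real, Real.norm_eq_abs, mul_pow]
    exact mul_le_mul_of_nonneg_right (pow_le_pow_left₀ (abs_nonneg _) (hC n) 2) (by positivity)
  have hs : ∀ u : L2, Summable fun n => ‖(V n : ℂ) * u n‖ ^ 2 := fun u =>
    Summable.of_nonneg_of_le (fun n => by positivity) (hle u)
      ((L2_hasSum_sq u).summable.mul_left (C ^ 2))
  have hm : ∀ u : L2, Memℓp (E := fun _ : ℤ => ℂ) (fun n => (V n : ℂ) * u n) 2 := by
    intro u
    apply memℓp_gen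
    simpa using hs u
  let S0 : L2 →ₗ[ℂ] L2 :=
    { toFun := fun u => ⟨fun n => (V n : ℂ) * u n, hm u⟩
      map_add' := fun u v => by
        apply Subtype.ext
        funext n
        exact mul_add _ _ _
      map_smul' := fun c u => by
        apply Subtype.ext
        funext n
        exact mul_left_comm _ _ _ }
  refine ⟨S0.mkContinuous C ?_, fun u n => rfl⟩
  intro u
  have h : ‖S0 u‖ ^ 2 ≤ (C * ‖u‖) ^ 2 := by
    rw [L2_norm_sq, mul_pow, L2_norm_sq u, ← tsum_mul_left]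
    exact Summable.tsum_le_tsum (hle u) (hs u) ((L2_hasSum_sq u).summable.mul_left (C ^ 2))
  exact (pow_le_pow_iff_left₀ (norm_nonneg _) (by positivity) two_ne_zero).mp h

theorem exists_ham (V : ℤ → ℝ) (C : ℝ) (hC : ∀ n, |V n| ≤ C) :
    ∃ T : L2 →L[ℂ] L2, ∀ (u : L2) (n : ℤ),
      (T u) n = u (n + 1) + u (n - 1) + (V n : ℂ) * u n := by
  obtain ⟨S1, h1⟩ := exists_perm (Equiv.addRight (1 : ℤ))
  obtain ⟨S2, h2⟩ := exists_perm (Equiv.subRight (1 : ℤ))
  obtain ⟨S3, h3⟩ := exists_mul V C hC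
  refine ⟨S1 + S2 + S3, fun u n => ?_⟩
  have e : ((S1 + S2 + S3) u) n = (S1 u) n + (S2 u) n + (S3 u) n := rfl
  rw [e, h1, h2, h3]
  rfl

theorem ham_unique (V : ℤ → ℝ) (T T' : L2 →L[ℂ] L2)
    (hT : ∀ (u : L2) (n : ℤ), (T u) n = u (n + 1) + u (n - 1) + (V n : ℂ) * u n)
    (hT' : ∀ (u : L2) (n : ℤ), (T' u) n = u (n + 1) + u (n - 1) + (V n : ℂ) * u n) :
    T = T' := by
  apply ContinuousLinearMap.ext
  intro u
  apply Subtype.ext
  funext n
  exact (hT u n).trans (hT' u n).symm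

theorem ham_selfAdjoint (V : ℤ → ℝ) (T : L2 →L[ℂ] L2)
    (hT : ∀ (u : L2) (n : ℤ), (T u) n = u (n + 1) + u (n - 1) + (V n : ℂ) * u n) :
    IsSelfAdjoint T := by
  rw [ContinuousLinearMap.isSelfAdjoint_iff']
  apply ContinuousLinearMap.ext
  intro y
  apply Subtype.ext
  funext k
  have h := ContinuousLinearMap.adjoint_inner_right T
    (lp.single (E := fun _ : ℤ => ℂ) 2 k (1 : ℂ)) y
  rw [T_single' T V hT k, inner_add_left, inner_add_left,
    lp.inner_single_left, lp.inner_single_left, lp.inner_single_left, lp.inner_single_left] at h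
  simp at h
  show (ContinuousLinearMap.adjoint T y) k = (T y) k
  rw [h, hT]
  ring

theorem ham_real (V : ℤ → ℝ) (T : L2 →L[ℂ] L2)
    (hT : ∀ (u : L2) (n : ℤ), (T u) n = u (n + 1) + u (n - 1) + (V n : ℂ) * u n) (z : ℂ)
    (hz : z ∈ spectrum ℂ T) : z.im = 0 := by
  have h := (ham_selfAdjoint V T hT).mem_spectrum_eq_re hz
  rw [h]
  exact Complex.ofReal_im _

/-! ### Transfer of approximate eigenvectors -/

theorem transfer (V V' : ℤ → ℝ)
    (hwin : ∀ N : ℕ, ∃ m : ℤ, ∀ n : ℤ, |n| ≤ N → V' (n + m) = V n) (T T' : L2 →L[ℂ] L2)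
    (hT : ∀ (u : L2) (n : ℤ), (T u) n = u (n + 1) + u (n - 1) + (V n : ℂ) * u n)
    (hT' : ∀ (u : L2) (n : ℤ), (T' u) n = u (n + 1) + u (n - 1) + (V' n : ℂ) * u n) (E : ℝ)
    (hE : (E : ℂ) ∈ spectrum ℂ T) : (E : ℂ) ∈ spectrum ℂ T' := by
  apply mem_spectrum_of_approx
  intro δ hδ
  by_contra hcon
  push Not at hcon
  refine not_mem_spectrum_of_bound T V hT E δ hδ ?_ hE
  intro u hfin
  by_cases hu0 : u = 0
  · rw [hu0]; simp
  -- a window containing the support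
  obtain ⟨N, hN⟩ : ∃ N : ℕ, ∀ n : ℤ, u n ≠ 0 → |n| ≤ N := by
    obtain ⟨N, hN⟩ := (hfin.image (fun n : ℤ => n.natAbs)).bddAbove
    refine ⟨N, fun n hn => ?_⟩
    have := hN ⟨n, hn, rfl⟩
    rw [Int.abs_eq_natAbs]
    exact_mod_cast this
  obtain ⟨m, hm⟩ := hwin N
  obtain ⟨S, hS⟩ := exists_perm (Equiv.subRight m)
  have hS' : ∀ (w : L2) (n : ℤ), (S w) n = w (n - m) := hS
  have hnorm : ∀ w : L2, ‖S w‖ = ‖w‖ := by
    intro w
    have h : ‖S w‖ ^ 2 = ‖w‖ ^ 2 := by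
      rw [L2_norm_sq, L2_norm_sq]
      simp only [hS']
      exact (Equiv.subRight m).tsum_eq (fun n => ‖w n‖ ^ 2)
    exact (pow_left_inj₀ (norm_nonneg _) (norm_nonneg _) two_ne_zero).mp h
  have hcomm : T' (S u) - (E : ℂ) • S u = S (T u - (E : ℂ) • u) := by
    apply Subtype.ext
    funext n
    have e1 : (S (T u - (E : ℂ) • u)) n = (T u) (n - m) - (E : ℂ) * u (n - m) := hS' _ n
    have e2 : (T' (S u) - (E : ℂ) • S u) n = (T' (S u)) n - (E : ℂ) * (S u) n := rfl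
    rw [e1, e2, hT', hT, hS', hS', hS']
    rw [show n + 1 - m = n - m + 1 by ring, show n - 1 - m = n - m - 1 by ring]
    by_cases h0 : u (n - m) = 0
    · rw [h0]; simp
    · have := hm (n - m) (hN _ h0)
      rw [sub_add_cancel] at this
      rw [this]
  have hSu : S u ≠ 0 := by
    intro h
    apply hu0
    rw [← norm_eq_zero, ← hnorm, h, norm_zero]
  have := hcon (S u) hSu
  rw [hcomm, hnorm, hnorm] at this
  exact this.le

/-! ### The Sturmian potential -/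

/-- the potential, `1` on `[1 - α, 1)` and `0` elsewhere, at `n α + θ mod 1` -/
noncomputable def pot (α θ : ℝ) (n : ℤ) : ℝ :=
  if 1 - α ≤ Int.fract ((n : ℝ) * α + θ) then 1 else 0

theorem abs_pot_le (α θ : ℝ) (n : ℤ) : |pot α θ n| ≤ 1 := by
  unfold pot
  split_ifs <;> simp

theorem fract_right (x : ℝ) (c : ℝ) : ∃ ε : ℝ, 0 < ε ∧ ∀ t : ℝ, 0 ≤ t → t < ε →
    (c ≤ Int.fract (x + t) ↔ c ≤ Int.fract x) := by
  have h1 : Int.fract x < 1 := Int.fract_lt_one x
  have hfr : ∀ t : ℝ, 0 ≤ t → t < 1 - Int.fract x → Int.fract (x + t) = Int.fract x + t := by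
    intro t ht ht1
    rw [Int.fract_eq_iff]
    refine ⟨by linarith [Int.fract_nonneg x], by linarith, ⌊x⌋, ?_⟩
    have := Int.floor_add_fract x
    linarith
  by_cases hc : c ≤ Int.fract x
  · refine ⟨1 - Int.fract x, by linarith, fun t ht ht1 => ?_⟩
    rw [hfr t ht ht1]
    exact ⟨fun _ => hc, fun _ => by linarith⟩
  · push Not at hc
    refine ⟨min (1 - Int.fract x) (c - Int.fract x), lt_min (by linarith) (by linarith),
      fun t ht ht1 => ?_⟩
    have ha := lt_of_lt_of_le ht1 (min_le_left _ _)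
    have hb := lt_of_lt_of_le ht1 (min_le_right _ _)
    rw [hfr t ht ha]
    exact ⟨fun h => by linarith, fun h => by linarith⟩

theorem exists_shift {α : ℝ} (hα : Irrational α) (θ θ' ε : ℝ) (hε : 0 < ε) :
    ∃ m k : ℤ, 0 ≤ θ' + m * α + k - θ ∧ θ' + m * α + k - θ < ε := by
  have hd : Dense (AddSubgroup.closure {α, (1 : ℝ)} : Set ℝ) := by
    rw [dense_addSubgroupClosure_pair_iff, div_one]
    exact hα
  obtain ⟨y, hy1, hy2⟩ := hd.exists_between (show θ - θ' < θ - θ' + ε by linarith)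
  rw [SetLike.mem_coe, AddSubgroup.mem_closure_pair] at hy1
  obtain ⟨m, k, hmk⟩ := hy1
  refine ⟨m, k, ?_, ?_⟩
  · have := hy2.1
    rw [← hmk] at this
    simp only [zsmul_eq_mul, mul_one] at this
    linarith
  · have := hy2.2
    rw [← hmk] at this
    simp only [zsmul_eq_mul, mul_one] at this
    linarith

/-- every finite window of the potential with phase `θ` occurs in the one with phase `θ'` -/
theorem window {α : ℝ} (hα : Irrational α) (θ θ' : ℝ) (N : ℕ) :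
    ∃ m : ℤ, ∀ n : ℤ, |n| ≤ N → pot α θ' (n + m) = pot α θ n := by
  -- a common epsilon
  have hex : ∃ ε : ℝ, 0 < ε ∧ ∀ n : ℤ, |n| ≤ N → ∀ t : ℝ, 0 ≤ t → t < ε →
      (1 - α ≤ Int.fract ((n : ℝ) * α + θ + t) ↔ 1 - α ≤ Int.fract ((n : ℝ) * α + θ)) := by
    choose ε hε0 hε using fun n : ℤ => fract_right ((n : ℝ) * α + θ) (1 - α)
    have hne : (Finset.Icc (-(N : ℤ)) N).Nonempty := ⟨0, by simp⟩
    refine ⟨(Finset.Icc (-(N : ℤ)) N).inf' hne ε, ?_, ?_⟩
    · rw [Finset.lt_inf'_iff]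
      exact fun n _ => hε0 n
    · intro n hn t ht ht1
      refine hε n t ht (lt_of_lt_of_le ht1 (Finset.inf'_le _ ?_))
      rw [abs_le] at hn
      exact Finset.mem_Icc.mpr hn
  obtain ⟨ε, hε0, hε⟩ := hex
  obtain ⟨m, k, h1, h2⟩ := exists_shift hα θ θ' ε hε0
  refine ⟨m, fun n hn => ?_⟩
  have h := hε n hn _ h1 h2
  have e : Int.fract (((n + m : ℤ) : ℝ) * α + θ') =
      Int.fract ((n : ℝ) * α + θ + (θ' + m * α + k - θ)) := by
    rw [show (n : ℝ) * α + θ + (θ' + m * α + k - θ) = (((n + m : ℤ) : ℝ) * α + θ') + (k : ℝ) by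
      push_cast; ring, Int.fract_add_intCast]
  unfold pot
  rw [e]
  simp only [h]

/-- phase `0`: the potential is `⌊(n+1)α⌋ - ⌊nα⌋` -/
theorem pot_zero {α : ℝ} (h0 : 0 < α) (h1 : α < 1) (n : ℤ) :
    pot α 0 n = ((⌊((n:ℝ) + 1) * α⌋ - ⌊(n:ℝ) * α⌋ : ℤ) : ℝ) := by
  have hf := Int.floor_add_fract ((n : ℝ) * α)
  have hn0 := Int.fract_nonneg ((n : ℝ) * α)
  have hn1 := Int.fract_lt_one ((n : ℝ) * α)
  unfold pot
  rw [add_zero]
  split_ifs with h
  · have : ⌊((n:ℝ) + 1) * α⌋ = ⌊(n:ℝ) * α⌋ + 1 := by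
      rw [Int.floor_eq_iff]
      push_cast
      constructor <;> linarith
    rw [this]
    simp
  · push Not at h
    have : ⌊((n:ℝ) + 1) * α⌋ = ⌊(n:ℝ) * α⌋ := by
      rw [Int.floor_eq_iff]
      constructor <;> linarith
    rw [this]
    simp

end Pool.Agent.Sturm69
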