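import Pool.Agent.Sturm69.Lib

/-!
The spectrum of the Sturmian Hamiltonian in terms of square summable sequences only: `z` is not in
the spectrum if and only if `H - z` is a bijection of `ℓ²(ℤ)` onto itself.
-/

set_option autoImplicit false

namespace Pool.Agent.Sturm69

open Pool.Agent.Sturm82 Pool.Agent.Sturm82.Spec

/-- square summable sequences -/
def SqSum (u : ℤ → ℂ) : Prop := Summable fun n : ℤ => ‖u n‖ ^ 2

/-- the Hamiltonian on sequences -/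
noncomputable def hamSeq (lam α θ : ℝ) (u : ℤ → ℂ) (n : ℤ) : ℂ :=
  u (n + 1) + u (n - 1) + ((lam * pot α θ n : ℝ) : ℂ) * u n

/-- `H - z` is a bijection of `ℓ²(ℤ)` onto itself -/
def ResPt (lam α θ : ℝ) (z : ℂ) : Prop :=
  ∀ f : ℤ → ℂ, SqSum f → ∃! u : ℤ → ℂ, SqSum u ∧ ∀ n : ℤ, hamSeq lam α θ u n - z * u n = f n

theorem sqSum_iff (u : ℤ → ℂ) : SqSum u ↔ Memℓp u 2 := by
  rw [memℓp_gen_iff (by norm_num)]
  unfold SqSum
  simp

theorem resPt_iff {lam α θ : ℝ} {T : L2 →L[ℂ] L2} (hT : HamP lam α θ T) (z : ℂ) :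
    ResPt lam α θ z ↔ z ∉ spectrum ℂ T := by
  rw [spectrum.notMem_iff, ← IsUnit.neg_iff, neg_sub, ContinuousLinearMap.isUnit_iff_bijective,
    Function.bijective_iff_existsUnique]
  have key : ∀ (u : L2) (n : ℤ), ((T - algebraMap ℂ (L2 →L[ℂ] L2) z) u) n
      = hamSeq lam α θ u n - z * u n := by
    intro u n
    have h1 : (T - algebraMap ℂ (L2 →L[ℂ] L2) z) u = T u - z • u := by
      simp [Algebra.algebraMap_eq_smul_one]
    rw [h1, lp.coeFn_sub, Pi.sub_apply, lp.coeFn_smul, Pi.smul_apply, hT u n]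
    rfl
  constructor
  · intro h f
    obtain ⟨u, ⟨hu1, hu2⟩, huniq⟩ := h (f : ℤ → ℂ) ((sqSum_iff _).2 f.2)
    refine ⟨⟨u, (sqSum_iff u).1 hu1⟩, ?_, ?_⟩
    · apply lp.ext
      funext n
      rw [key]
      exact hu2 n
    · intro v hv
      apply lp.ext
      have := huniq (v : ℤ → ℂ) ⟨(sqSum_iff _).2 v.2, fun n => by rw [← key, hv]⟩
      exact this
  · intro h f hf
    obtain ⟨u, hu, huniq⟩ := h ⟨f, (sqSum_iff f).1 hf⟩
    refine ⟨(u : ℤ → ℂ), ⟨(sqSum_iff _).2 u.2, fun n => by rw [← key, hu]⟩, ?_⟩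
    rintro v ⟨hv1, hv2⟩
    have := huniq ⟨v, (sqSum_iff v).1 hv1⟩ (by
      apply lp.ext
      funext n
      rw [key]
      exact hv2 n)
    exact congrArg (fun w : L2 => (w : ℤ → ℂ)) this

theorem spec_facts (lam : ℝ) {α : ℝ} (hα : Irrational α) (θ : ℝ) (z : ℂ) :
    ¬ ResPt lam α θ z ↔ ∃ E ∈ SpR lam α 0, z = (E : ℂ) := by
  obtain ⟨T, hT, -, -, hs⟩ := ham_facts lam α θ
  rw [resPt_iff hT, not_not, hs, phase_eq lam hα 0 θ]
  constructor
  · rintro ⟨E, hE, rfl⟩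
    exact ⟨E, hE, rfl⟩
  · rintro ⟨E, hE, rfl⟩
    exact ⟨E, hE, rfl⟩

end Pool.Agent.Sturm69
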