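import Pool.Agent.Sturm69.Cross

/-!
Tail invariance of the dimension of the trace set, for digit sequences with arbitrarily large
consecutive pairs.
-/

set_option autoImplicit false

namespace Pool.Agent.Sturm69

open Pool.Agent.Sturm82 Set Complex Topology Filter

lemma norm_cross2 {lam : ℝ} (hlam : 0 < lam) {R : ℝ} {g : ℝ × ℝ × ℝ} (h1 : |g.1| = 2)
    (hs : surf g = 4 + lam ^ 2) (h2 : |g.2.1| ≤ R) : ‖g‖ ≤ lam + R + 2 := by
  obtain ⟨x, y, w⟩ := g
  simp only [surf] at h1 hs h2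
  have hR : 0 ≤ R := (abs_nonneg _).trans h2
  have hx2 : x ^ 2 = 4 := by rw [← sq_abs, h1]; norm_num
  have hw : (w - x * y / 2) ^ 2 = lam ^ 2 := by nlinarith
  have hw2 : |w - x * y / 2| = lam := by
    rw [← abs_of_pos hlam]
    exact (sq_eq_sq_iff_abs_eq_abs _ _).mp hw
  have hxy : |x * y / 2| ≤ R := by
    rw [abs_div, abs_mul, h1, abs_two]
    linarith
  have hw3 : |w| ≤ lam + R := by
    have : w = (w - x * y / 2) + x * y / 2 := by ring
    rw [this]
    refine (abs_add_le _ _).trans ?_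
    linarith
  rw [Prod.norm_def, Prod.norm_def]
  simp only [Real.norm_eq_abs]
  refine max_le ?_ (max_le ?_ ?_)
  · rw [h1]; linarith
  · linarith
  · linarith

/-- **Key inequality**, general target. -/
theorem key_ineq2 {lam : ℝ} (hlam : 0 < lam) {a b : ℕ → ℕ} (ha : ∀ n, 1 ≤ a n)
    (hb : ∀ n, 1 ≤ b n) (pa pb : ℕ) (htail : ∀ j, b (pb + j) = a (pa + j))
    {η : ℝ} (hη0 : 0 < η) (hη1 : η < 1)
    (hm0 : 6 * Real.pi * (lam + 4) ≤ η * (lam * a pa - 4)) {y0 : ℝ}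
    (hy0 : |(Gv lam b pb y0).2.1| < 2) {e0 : ℝ} (he0 : |(Gv lam a pa e0).2.1| < 2) :
    ∃ δ > 0, ∃ c > 0, ∃ R : ℝ, ∀ K : ℕ, ∃ G : ℝ → ℝ × ℝ × ℝ,
      (∀ e, |e - e0| < δ → |(orb a (2, e, e - lam) (pa + K + 1)).2.1| < 2 →
        |(G e).1| = 2 ∧ surf (G e) = 4 + lam ^ 2 ∧ |(G e).2.1| ≤ R ∧
        |(orb b (G e) (pb + K + 1)).2.1| < 2) ∧
      (∀ e1 e2, |e1 - e0| < δ → |e2 - e0| < δ →
        |(orb a (2, e1, e1 - lam) (pa + K + 1)).2.1| < 2 →
        |(orb a (2, e2, e2 - lam) (pa + K + 1)).2.1| < 2 →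
        c * |e1 - e2| ^ (((1 + η) / (1 - η)) ^ 2) ≤ dist (G e1) (G e2)) := by
  obtain ⟨s, t1, t2, hs, ht12, hin, hneg, hsur⟩ := exists_branch hlam hb pb hy0
  set a' : ℕ → ℕ := fun n => a (pa + (n - 1)) with ha'def
  have ha' : ∀ n, 1 ≤ a' n := fun n => ha _
  have hc : ∀ n, 1 ≤ (fun j => a' (j + 1)) n := fun n => ha _
  have hcb : ∀ j, b (pb + j) = (fun j => a' (j + 1)) j := fun j => htail j
  have hm : 6 * Real.pi * (lam + 4) ≤ η * (lam * a' (0 + 1) - 4) := hm0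
  obtain ⟨θ, ψ, θ', ψ', hθs, hψs, hθ0, hev, hθ'0, h5, h6⟩ := gamma_data hlam ha pa he0
  set c0 := Real.arccos ((Gv lam a pa e0).2.1 / 2) with hc0
  have hab := abs_lt.mp he0
  have h0 : 0 < c0 := by
    rw [hc0]
    exact Real.arccos_pos.mpr (by linarith)
  have h1 : c0 < Real.pi := by
    rw [hc0]
    have h7 : Real.arccos ((Gv lam a pa e0).2.1 / 2) ≠ Real.pi := by
      intro h
      rw [Real.arccos_eq_pi] at h
      linarith
    exact lt_of_le_of_ne (Real.arccos_le_pi _) h7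
  obtain ⟨hb0, hb1, hb2⟩ := ball_facts h0 h1
  set ρ := Real.sin c0 / 2 with hρ
  have hpi := Real.pi_pos
  have hηρ0 := mul_pos hη0 hb0
  have hηρ2 : η * ρ / 2 < η * ρ := by linarith
  have hηρ1 : η * ρ < ρ := by nlinarith
  have hBd := Bd_pos hlam h0 h1 (a' (0 + 1))
  have hη1' : 0 < 1 - η := by linarith
  set m : ℝ := (a' (0 + 1) : ℝ) with hmdef
  have hm1 : 0 < lam * m - 4 := by
    by_contra hcon
    push Not at hcon
    have h3 : η * (lam * m - 4) ≤ 0 := mul_nonpos_of_nonneg_of_nonpos hη0.le hcon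
    have h4 : 0 < 6 * Real.pi * (lam + 4) := by positivity
    linarith
  have hmn : 0 ≤ m := Nat.cast_nonneg _
  have hm4 : 0 < m - 4 / lam := by
    rw [sub_pos, div_lt_iff₀ hlam]; linarith
  have hθpos : 0 < |θ'| := abs_pos.mpr hθ'0
  set ε := min |θ'| ((m - 4 / lam) * |θ'| / 2 / (m + 1)) with hε
  have hε0 : 0 < ε := by
    rw [hε]; exact lt_min hθpos (by positivity)
  have hε1 : ε ≤ |θ'| := min_le_left _ _
  have hε2 : ε * (m + 1) ≤ (m - 4 / lam) * |θ'| / 2 := by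
    have : ε ≤ (m - 4 / lam) * |θ'| / 2 / (m + 1) := min_le_right _ _
    rwa [le_div_iff₀ (by positivity)] at this
  obtain ⟨δ1, hδ1, hpair1⟩ := strict_pair hθs hε0
  obtain ⟨δ2, hδ2, hpair2⟩ := strict_pair hψs hε0
  rw [Metric.eventually_nhds_iff] at hev
  obtain ⟨δ3, hδ3, hev⟩ := hev
  have hcont : ∀ᶠ e in 𝓝 e0, |θ e - c0| < η * ρ / 2 := by
    have hc : ContinuousAt θ e0 := hθs.hasDerivAt.continuousAt
    have hc2 : ContinuousAt (fun e => |θ e - c0|) e0 := (hc.sub continuousAt_const).abs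
    refine hc2.eventually_lt continuousAt_const ?_
    rw [hθ0, sub_self, abs_zero]
    positivity
  rw [Metric.eventually_nhds_iff] at hcont
  obtain ⟨δ4, hδ4, hcont⟩ := hcont
  set Λ := Bd lam c0 (a' (0 + 1)) / ((1 - η) * ρ / 2) with hΛ
  have hΛ0 : 0 < Λ := by positivity
  set Q := Λ * (|θ'| + ε) + (|ψ'| + ε) with hQ
  have hQ0 : 0 < Q := by positivity
  set δ := min (min δ1 δ2) (min (min δ3 δ4) (Real.pi / Q / 2)) with hδ
  have hδ0 : 0 < δ := by
    rw [hδ]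
    exact lt_min (lt_min hδ1 hδ2) (lt_min (lt_min hδ3 hδ4) (by positivity))
  have hl1 : δ ≤ δ1 := (min_le_left _ _).trans (min_le_left _ _)
  have hl2 : δ ≤ δ2 := (min_le_left _ _).trans (min_le_right _ _)
  have hl3 : δ ≤ δ3 := (min_le_right _ _).trans ((min_le_left _ _).trans (min_le_left _ _))
  have hl4 : δ ≤ δ4 := (min_le_right _ _).trans ((min_le_left _ _).trans (min_le_right _ _))
  have hl5 : δ ≤ Real.pi / Q / 2 := (min_le_right _ _).trans (min_le_right _ _)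
  -- constants
  set R : ℝ := max |t1| |t2| with hRdef
  have hR0 : 0 ≤ R := (abs_nonneg t1).trans (le_max_left _ _)
  obtain ⟨CL, BB, hCL, hBB, hlip⟩ := orb_lip b pb (R := lam + R + 2) (by positivity)
  obtain ⟨CB, hCB0, hCB⟩ := sgo_lip h0 h1 hBB
  set κ := ((1 + η) / (1 - η)) ^ 2 with hκ
  have hκ0 : 0 < κ := by positivity
  set A := 2 / Real.pi * ((m - 4 / lam) * |θ'| / 2) with hA
  have hA0 : 0 < A := by positivity
  set Ct := (CB + Λ * CB) * CL with hCt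
  have hCt0 : 0 < Ct := by positivity
  set M := 2 * Bd lam c0 (a' (0 + 1)) with hM
  have hM0 : 0 < M := by positivity
  refine ⟨δ, hδ0, M * (A / M) ^ κ / Ct, by positivity, R, fun K => ?_⟩
  have key : ∀ e, |e - e0| < δ → |(orb a (2, e, e - lam) (pa + K + 1)).2.1| < 2 →
      ∃ (σ : ℂ → ℂ) (q : ℝ) (g : ℝ × ℝ × ℝ) (c' : ℝ), |c'| < 2 ∧
        IsLeaf lam (fun j => a' (j + 1)) 0 K c0 c' σ ∧
        σ (θ e) = Cf lam (θ e) * exp (ψ e * I) ∧ |q - c0| < η * ρ ∧
        Wc lam q (σ q) = tmap ofRealHom (orb b g pb) ∧ |g.1| = 2 ∧ surf g = 4 + lam ^ 2 ∧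
        |g.2.1| ≤ R ∧ (orb b g (pb + K + 1)).2.1 = c' := by
    intro e he hN
    obtain ⟨h7, h8, h9⟩ := hev (y := e) (lt_of_lt_of_le he hl3)
    have h10 : |θ e - c0| < η * ρ / 2 := hcont (y := e) (lt_of_lt_of_le he hl4)
    have h11 : |θ e - c0| < ρ := h10.trans (hηρ2.trans hηρ1)
    have h12 : (Gv lam a pa e).2.1 = 2 * Real.cos (θ e) := by
      have hab := abs_lt.mp h7
      rw [h8, Real.cos_arccos (by linarith) (by linarith)]
      ring
    have h13 : orb a (2, e, e - lam) (pa + K + 1) =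
        orb (fun j => (fun j => a' (j + 1)) (0 + j)) (Gv lam a pa e) (K + 1) := by
      have e3 : (fun j => (fun j => a' (j + 1)) (0 + j)) = fun j => a (pa + j) := by
        funext j
        simp only [ha'def, zero_add, Nat.add_sub_cancel]
      rw [add_assoc, orb_add, e3]
      rfl
    rw [h13] at hN
    obtain ⟨σ, hL, hW⟩ := exists_isLeaf hlam hc h0 h1 (surf_Gv lam a pa e) h11 h12 hN
    obtain ⟨q, g, hq, hWq, hg1, hg2, hg3, hg5⟩ := exists_cross2 hlam hb hs ht12 hin hneg hsur hc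
      hcb h0 h1 hη0 hη1 hm h10 hN hL hW (fst_bound hlam ha pa h7.le)
    refine ⟨σ, q, g, _, hN, hL, ?_, hq, hWq, hg1, hg2, hg3, hg5⟩
    have hsin : Real.sin (θ e) ≠ 0 := by
      have := (sin_Icc_bound h11.le).1
      exact (by linarith : 0 < Real.sin (θ e)).ne'
    have hsinc : sin ((θ e : ℝ) : ℂ) ≠ 0 := by
      rw [← ofReal_sin]; exact_mod_cast hsin
    have h14 : Wc lam (θ e) (σ (θ e)) = Wc lam (θ e) (Cf lam (θ e) * exp (ψ e * I)) := by
      rw [hW, Wc_real hsin, ← h9]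
    have h15 := congrArg (sgo ((θ e : ℝ) : ℂ)) h14
    rwa [sgo_Wc hsinc, sgo_Wc hsinc] at h15
  choose! σ q g c' hkey using key
  refine ⟨g, fun e he hN => ?_, fun e1 e2 he1 he2 hN1 hN2 => ?_⟩
  · obtain ⟨k1, k2, k3, k4, k5, k6, k7, k8, k10⟩ := hkey e he hN
    exact ⟨k6, k7, k8, by rw [k10]; exact k1⟩
  · rcases eq_or_ne e1 e2 with rfl | hne
    · simp [Real.zero_rpow hκ0.ne']
    obtain ⟨k1, k2, k3, k4, k5, k6, k7, k8, k10⟩ := hkey e1 he1 hN1
    obtain ⟨l1, l2, l3, l4, l5, l6, l7, l8, l10⟩ := hkey e2 he2 hN2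
    have hde : 0 < |e1 - e2| := abs_pos.mpr (sub_ne_zero.mpr hne)
    have hde2 : |e1 - e2| ≤ 2 * δ := by
      have : e1 - e2 = (e1 - e0) - (e2 - e0) := by ring
      rw [this]
      refine (abs_sub _ _).trans ?_
      linarith
    have hθ1 : |θ e1 - c0| < η * ρ :=
      lt_trans (hcont (y := e1) (lt_of_lt_of_le he1 hl4)) hηρ2
    have hθ2 : |θ e2 - c0| < η * ρ :=
      lt_trans (hcont (y := e2) (lt_of_lt_of_le he2 hl4)) hηρ2
    have hsmall : Q * |e1 - e2| ≤ Real.pi := by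
      have h7 : Q * |e1 - e2| ≤ Q * (2 * (Real.pi / Q / 2)) :=
        mul_le_mul_of_nonneg_left (by linarith) hQ0.le
      have h8 : Q * (2 * (Real.pi / Q / 2)) = Real.pi := by field_simp
      linarith
    have hlow := lower_start hlam ha' (p := 0) (K := K) h0 h1 hη0 hη1 hm1 l1 l2
      hθ1 hθ2 k3 l3
      (hpair1 e1 e2 (by linarith) (by linarith)) (hpair2 e1 e2 (by linarith) (by linarith))
      h5 h6 hε1 hε2 hsmall
    have hn1 : ‖g e1‖ ≤ lam + R + 2 := norm_cross2 hlam k6 k7 k8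
    have hn2 : ‖g e2‖ ≤ lam + R + 2 := norm_cross2 hlam l6 l7 l8
    obtain ⟨hli, hV1⟩ := hlip _ _ hn1 hn2
    have hV2 := (hlip _ _ hn2 hn1).2
    have hpe := pair_estimate hlam ha' (p := 0) (K := K) h0 h1 hη0 hη1 k1 k2 l2 hθ1 k4 l4
      (low := 2 / Real.pi * ((m - 4 / lam) * |θ'| / 2 * |e1 - e2|)) (by positivity) hlow
      hV1 hV2 k5 l5 hCB
    have h9 : 2 / Real.pi * ((m - 4 / lam) * |θ'| / 2 * |e1 - e2|) / M = A / M * |e1 - e2| := by
      rw [hA]; ring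
    rw [← hM, h9, Real.mul_rpow (by positivity) hde.le] at hpe
    rw [div_mul_eq_mul_div, div_le_iff₀ hCt0]
    have h10 : (CB + Λ * CB) * dist (orb b (g e1) pb) (orb b (g e2) pb) ≤
        (CB + Λ * CB) * (CL * dist (g e1) (g e2)) :=
      mul_le_mul_of_nonneg_left hli (by positivity)
    calc M * (A / M) ^ κ * |e1 - e2| ^ κ = M * ((A / M) ^ κ * |e1 - e2| ^ κ) := by ring
      _ ≤ _ := hpe
      _ ≤ _ := h10
      _ = dist (g e1) (g e2) * Ct := by rw [hCt]; ring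

/-! ### limit along an ultrafilter -/

lemma class_dim2 {lam : ℝ} (hlam : 0 < lam) {b : ℕ → ℕ} (hb : ∀ n, 1 ≤ b n) {c R : ℝ}
    {κ : NNReal} (hc : 0 < c) (hκ : 0 < κ) {T : Set ℝ} {G : ℕ → ℝ → ℝ × ℝ × ℝ} {M : ℕ → ℕ}
    (hM : ∀ K, K ≤ M K)
    (hG : ∀ e ∈ T, ∀ᶠ K in (hyperfilter ℕ : Filter ℕ), |(G K e).1| = 2 ∧
      surf (G K e) = 4 + lam ^ 2 ∧ |(G K e).2.1| ≤ R ∧ |(orb b (G K e) (M K)).2.1| < 2)
    (hineq : ∀ e1 ∈ T, ∀ e2 ∈ T, ∀ᶠ K in (hyperfilter ℕ : Filter ℕ),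
      c * |e1 - e2| ^ (κ : ℝ) ≤ dist (G K e1) (G K e2)) :
    dimH T ≤ κ * dimH (Sig lam b) := by
  have hlim : ∀ e ∈ T, ∃ v, Tendsto (fun K => G K e) (hyperfilter ℕ : Filter ℕ) (𝓝 v) := by
    intro e he
    have hcomp : IsCompact (Metric.closedBall (0 : ℝ × ℝ × ℝ) (lam + R + 2)) :=
      isCompact_closedBall _ _
    obtain ⟨v, -, hv⟩ := hcomp.ultrafilter_le_nhds ((hyperfilter ℕ).map (fun K => G K e)) (by
      rw [Ultrafilter.coe_map, le_principal_iff, mem_map]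
      filter_upwards [hG e he] with K hK
      obtain ⟨h1, h2, h3, -⟩ := hK
      have := norm_cross2 hlam h1 h2 h3
      simpa using this)
    exact ⟨v, hv⟩
  choose! g hg using hlim
  have hg1 : ∀ e ∈ T, |(g e).1| = 2 := by
    intro e he
    have hcl : IsClosed {v : ℝ × ℝ × ℝ | |v.1| = 2} :=
      isClosed_eq (continuous_fst.abs) continuous_const
    exact hcl.mem_of_tendsto (hg e he) ((hG e he).mono fun K hK => hK.1)
  have hg2 : ∀ e ∈ T, surf (g e) = 4 + lam ^ 2 := by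
    intro e he
    have hcl : IsClosed {v : ℝ × ℝ × ℝ | surf v = 4 + lam ^ 2} := by
      refine isClosed_eq ?_ continuous_const
      unfold surf
      fun_prop
    exact hcl.mem_of_tendsto (hg e he) ((hG e he).mono fun K hK => hK.2.1)
  have hg3 : ∀ e ∈ T, ∀ N, |(orb b (g e) N).2.1| ≤ 2 ∨ |(orb b (g e) (N + 1)).2.1| ≤ 2 := by
    intro e he N
    have hge : ∀ᶠ K in (hyperfilter ℕ : Filter ℕ), N ≤ K := by
      have h1 : ∀ᶠ K in (cofinite : Filter ℕ), N ≤ K := by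
        rw [Nat.cofinite_eq_atTop]
        exact eventually_ge_atTop N
      exact hyperfilter_le_cofinite h1
    have hor : ∀ᶠ K in (hyperfilter ℕ : Filter ℕ), |(orb b (G K e) N).2.1| ≤ 2 ∨
        |(orb b (G K e) (N + 1)).2.1| ≤ 2 := by
      filter_upwards [hG e he, hge] with K hK hNK
      exact nest hb (Or.inl hK.1.le) (hK.2.2.2).le (hNK.trans (hM K))
    rw [Ultrafilter.eventually_or] at hor
    rcases hor with h | h
    · left
      exact (isClosed_level b N).mem_of_tendsto (hg e he) h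
    · right
      exact (isClosed_level b (N + 1)).mem_of_tendsto (hg e he) h
  have hg4 : ∀ e1 ∈ T, ∀ e2 ∈ T, c * |e1 - e2| ^ (κ : ℝ) ≤ dist (g e1) (g e2) := by
    intro e1 he1 e2 he2
    exact ge_of_tendsto ((hg e1 he1).dist (hg e2 he2)) (hineq e1 he1 e2 he2)
  have htype : ∀ s t : ℝ, |s| = 1 → |t| = 1 →
      dimH {e ∈ T | g e = (2 * s, (g e).2.1, s * (g e).2.1 + t * lam)} ≤ κ * dimH (Sig lam b) := by
    intro s t hs ht
    refine type_dim hc hκ hs ht (g := g) (fun e he => he.2) (fun e he => hg3 e he.1)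
      (fun e1 he1 e2 he2 => hg4 e1 he1.1 e2 he2.1)
  set A : ℝ → ℝ → Set ℝ := fun s t =>
    {e ∈ T | g e = (2 * s, (g e).2.1, s * (g e).2.1 + t * lam)} with hA
  have hcov : T ⊆ (A 1 1 ∪ A 1 (-1)) ∪ (A (-1) 1 ∪ A (-1) (-1)) := by
    intro e he
    have h1 := hg1 e he
    have h2 := hg2 e he
    have key : ∀ x y w : ℝ, |x| = 2 → x ^ 2 + y ^ 2 + w ^ 2 - x * y * w = 4 + lam ^ 2 →
        ((x = 2 * 1 ∧ w = 1 * y + 1 * lam) ∨ (x = 2 * 1 ∧ w = 1 * y + (-1) * lam)) ∨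
        ((x = 2 * (-1) ∧ w = (-1) * y + 1 * lam) ∨ (x = 2 * (-1) ∧ w = (-1) * y + (-1) * lam)) := by
      intro x y w hx hs
      rcases eq_or_eq_neg_of_abs_eq hx with rfl | rfl
      · left
        have h3 : (w - y - lam) * (w - y + lam) = 0 := by linarith
        rcases mul_eq_zero.mp h3 with h | h
        · left; exact ⟨by norm_num, by linarith⟩
        · right; exact ⟨by norm_num, by linarith⟩
      · right
        have h3 : (w + y - lam) * (w + y + lam) = 0 := by linarith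
        rcases mul_eq_zero.mp h3 with h | h
        · left; exact ⟨by norm_num, by linarith⟩
        · right; exact ⟨by norm_num, by linarith⟩
    rcases key (g e).1 (g e).2.1 (g e).2.2 h1 h2 with (⟨h3, h4⟩ | ⟨h3, h4⟩) | (⟨h3, h4⟩ | ⟨h3, h4⟩)
    · exact Or.inl (Or.inl ⟨he, Prod.ext h3 (Prod.ext rfl h4)⟩)
    · exact Or.inl (Or.inr ⟨he, Prod.ext h3 (Prod.ext rfl h4)⟩)
    · exact Or.inr (Or.inl ⟨he, Prod.ext h3 (Prod.ext rfl h4)⟩)
    · exact Or.inr (Or.inr ⟨he, Prod.ext h3 (Prod.ext rfl h4)⟩)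
  refine (dimH_mono hcov).trans ?_
  rw [dimH_union, dimH_union, dimH_union]
  refine max_le (max_le ?_ ?_) (max_le ?_ ?_)
  · exact htype 1 1 (by simp) (by simp)
  · exact htype 1 (-1) (by simp) (by simp)
  · exact htype (-1) 1 (by simp) (by simp)
  · exact htype (-1) (-1) (by simp) (by simp)

/-- local estimate -/
lemma local_dim2 {lam : ℝ} (hlam : 0 < lam) {a b : ℕ → ℕ} (ha : ∀ n, 1 ≤ a n)
    (hb : ∀ n, 1 ≤ b n) {sa sb : ℕ} (htail : ∀ j, b (sb + j) = a (sa + j))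
    (hinf : ∀ m : ℕ, ∃ n, m ≤ a n ∧ m ≤ a (n + 1))
    (hzero : ∀ p, ∃ y, |(Gv lam b p y).2.1| < 2) {η : ℝ} (hη0 : 0 < η) (hη1 : η < 1)
    {S : Set ℝ} (hS : S ⊆ Sig lam a) (hgen : ∀ e ∈ S, ∀ n, |X lam a e n| ≠ 2) {e0 : ℝ}
    (he0 : e0 ∈ S) :
    ∃ δ > 0, dimH (S ∩ Metric.ball e0 δ) ≤ kap η * dimH (Sig lam b) := by
  -- choice of level
  obtain ⟨m, hm⟩ := exists_nat_ge ((6 * Real.pi * (lam + 4) / η + 4) / lam)
  have hm' : ∀ k : ℕ, m ≤ k → 6 * Real.pi * (lam + 4) ≤ η * (lam * k - 4) := by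
    intro k hk
    have hk' : (m : ℝ) ≤ k := by exact_mod_cast hk
    have h3 : (6 * Real.pi * (lam + 4) / η + 4) / lam ≤ k := hm.trans hk'
    rw [div_le_iff₀ hlam] at h3
    have h4 : 6 * Real.pi * (lam + 4) / η ≤ lam * k - 4 := by linarith
    rw [div_le_iff₀ hη0] at h4
    linarith
  -- a large pair beyond `sa`
  obtain ⟨n, hn1, hn2⟩ := hinf (max m (∑ i ∈ Finset.range (sa + 1), a i + 1))
  have hnsa : sa ≤ n := by
    by_contra hcon
    push Not at hcon
    have h3 : a n ≤ ∑ i ∈ Finset.range (sa + 1), a i :=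
      Finset.single_le_sum (f := a) (fun i _ => Nat.zero_le _) (Finset.mem_range.mpr (by omega))
    have h4 := (le_max_right m (∑ i ∈ Finset.range (sa + 1), a i + 1)).trans hn1
    omega
  have hlt : ∀ e ∈ S, ∀ k, |X lam a e k| ≤ 2 → |X lam a e k| < 2 := fun e he k hk =>
    lt_of_le_of_ne hk (hgen e he k)
  obtain ⟨pa, hpsa, hpm, hpx⟩ : ∃ pa, sa ≤ pa ∧ m ≤ a pa ∧ |X lam a e0 pa| < 2 := by
    rcases hS he0 n with h | h
    · exact ⟨n, hnsa, le_trans (le_max_left _ _) hn1, hlt e0 he0 _ h⟩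
    · exact ⟨n + 1, by omega, le_trans (le_max_left _ _) hn2, hlt e0 he0 _ h⟩
  set pb := sb + (pa - sa) with hpb
  have htail' : ∀ j, b (pb + j) = a (pa + j) := by
    intro j
    have := htail (pa - sa + j)
    have e1 : sb + (pa - sa + j) = pb + j := by rw [hpb]; ring
    have e2 : sa + (pa - sa + j) = pa + j := by omega
    rw [e1, e2] at this
    exact this
  obtain ⟨y0, hy0⟩ := hzero pb
  obtain ⟨δ, hδ, c, hc, R, hkey⟩ := key_ineq2 hlam ha hb pa pb htail' hη0 hη1 (hm' _ hpm) hy0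
    (e0 := e0) hpx
  choose G hG1 hG2 using hkey
  refine ⟨δ, hδ, ?_⟩
  -- two classes
  set T : ℕ → Set ℝ := fun i => {e ∈ S ∩ Metric.ball e0 δ | ∀ᶠ K in (hyperfilter ℕ : Filter ℕ),
    |(orb a (2, e, e - lam) (pa + (K + i) + 1)).2.1| < 2} with hT
  have hcov : S ∩ Metric.ball e0 δ ⊆ T 0 ∪ T 1 := by
    intro e he
    have hor : ∀ᶠ K in (hyperfilter ℕ : Filter ℕ),
        |(orb a (2, e, e - lam) (pa + (K + 0) + 1)).2.1| < 2 ∨
        |(orb a (2, e, e - lam) (pa + (K + 1) + 1)).2.1| < 2 := by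
      refine Eventually.of_forall fun K => ?_
      rcases hS he.1 (pa + K + 1) with h | h
      · left; exact hlt e he.1 _ h
      · right
        have := hlt e he.1 _ h
        have e1 : pa + K + 1 + 1 = pa + (K + 1) + 1 := by ring
        rw [e1] at this
        exact this
    rw [Ultrafilter.eventually_or] at hor
    rcases hor with h | h
    · exact Or.inl ⟨he, h⟩
    · exact Or.inr ⟨he, h⟩
  have hcl : ∀ i, dimH (T i) ≤ kap η * dimH (Sig lam b) := by
    intro i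
    refine class_dim2 hlam hb hc (kap_pos hη0 hη1) (R := R) (G := fun K => G (K + i))
      (M := fun K => pb + (K + i) + 1) (fun K => by omega) ?_ ?_
    · intro e he
      have hb : |e - e0| < δ := by
        have := he.1.2
        rwa [Metric.mem_ball, Real.dist_eq] at this
      filter_upwards [he.2] with K hK
      exact hG1 (K + i) e hb hK
    · intro e1 he1 e2 he2
      have hb1 : |e1 - e0| < δ := by
        have := he1.1.2
        rwa [Metric.mem_ball, Real.dist_eq] at this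
      have hb2 : |e2 - e0| < δ := by
        have := he2.1.2
        rwa [Metric.mem_ball, Real.dist_eq] at this
      filter_upwards [he1.2, he2.2] with K hK1 hK2
      rw [coe_kap hη1]
      exact hG2 (K + i) e1 e2 hb1 hb2 hK1 hK2
  refine (dimH_mono hcov).trans ?_
  rw [dimH_union]
  exact max_le (hcl 0) (hcl 1)

/-- **Tail comparison.** -/
theorem dimH_tail_le {lam : ℝ} (hlam : 0 < lam) {a b : ℕ → ℕ} (ha : ∀ n, 1 ≤ a n)
    (hb : ∀ n, 1 ≤ b n) {sa sb : ℕ} (htail : ∀ j, b (sb + j) = a (sa + j))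
    (hinf : ∀ m : ℕ, ∃ n, m ≤ a n ∧ m ≤ a (n + 1))
    (hzero : ∀ p, ∃ y, |(Gv lam b p y).2.1| < 2) :
    dimH (Sig lam a) ≤ dimH (Sig lam b) := by
  set D : Set ℝ := ⋃ n, {e : ℝ | |X lam a e n| = 2} with hD
  have hDc : D.Countable := countable_iUnion fun n =>
    (finite_abs_eq_two hlam (fun n => ha _) n).countable
  set S : Set ℝ := Sig lam a \ D with hS
  have hgen : ∀ e ∈ S, ∀ n, |X lam a e n| ≠ 2 := by
    intro e he n h
    exact he.2 (mem_iUnion.mpr ⟨n, h⟩)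
  have hSub : Sig lam a ⊆ S ∪ D := by
    intro e he
    by_cases h : e ∈ D
    · exact Or.inr h
    · exact Or.inl ⟨he, h⟩
  have hdim : dimH (Sig lam a) ≤ dimH S := by
    refine (dimH_mono hSub).trans ?_
    rw [dimH_union, hDc.dimH_zero]
    exact max_le le_rfl bot_le
  refine hdim.trans ?_
  have hκ : ∀ η : ℝ, 0 < η → η < 1 → dimH S ≤ kap η * dimH (Sig lam b) := by
    intro η hη0 hη1
    by_contra hcon
    push Not at hcon
    obtain ⟨e0, he0, hlt⟩ := exists_mem_nhdsWithin_lt_dimH_of_lt_dimH hcon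
    obtain ⟨δ, hδ, hle⟩ := local_dim2 hlam ha hb htail hinf hzero hη0 hη1 sdiff_subset hgen he0
    have := hlt (S ∩ Metric.ball e0 δ) (inter_mem self_mem_nhdsWithin
      (mem_nhdsWithin_of_mem_nhds (Metric.ball_mem_nhds e0 hδ)))
    exact absurd this (not_lt.mpr hle)
  have hcont : Tendsto (fun η : ℝ => (kap η : ENNReal) * dimH (Sig lam b)) (𝓝[>] 0)
      (𝓝 (1 * dimH (Sig lam b))) := by
    refine ENNReal.Tendsto.mul_const ?_ (Or.inl one_ne_zero)
    have h1 : Tendsto (fun η : ℝ => ((1 + η) / (1 - η)) ^ 2) (𝓝[>] 0) (𝓝 1) := by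
      have h3 : ContinuousAt (fun η : ℝ => ((1 + η) / (1 - η)) ^ 2) 0 := by
        refine ContinuousAt.pow (ContinuousAt.div (by fun_prop) (by fun_prop) (by norm_num)) 2
      have h4 := h3.tendsto
      simp only [add_zero, sub_zero, div_one, one_pow] at h4
      exact h4.mono_left nhdsWithin_le_nhds
    have h5 := ENNReal.tendsto_ofReal h1
    rw [ENNReal.ofReal_one] at h5
    exact h5
  rw [one_mul] at hcont
  refine ge_of_tendsto hcont ?_
  have hev : ∀ᶠ η : ℝ in 𝓝[>] 0, η ∈ Ioo (0 : ℝ) 1 := Ioo_mem_nhdsGT one_pos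
  filter_upwards [hev] with η hη
  exact hκ η hη.1 hη.2

/-- **Tail invariance** for continued fraction digits. -/
theorem dimH_tail_eq {lam : ℝ} (hlam : 0 < lam) {α β : ℝ} (hα : α ∈ Ioo (0 : ℝ) 1)
    (hβ : β ∈ Ioo (0 : ℝ) 1) (hαi : Irrational α) (hβi : Irrational β) {s t : ℕ}
    (htail : ∀ j, dig α (s + j) = dig β (t + j))
    (hinf : ∀ m : ℕ, ∃ n, m ≤ dig α n ∧ m ≤ dig α (n + 1)) :
    dimH (Sig lam (dig α)) = dimH (Sig lam (dig β)) := by
  have ha := Spec.one_le_dig hα.1 hα.2 hαi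
  have hb := Spec.one_le_dig hβ.1 hβ.2 hβi
  have hza : ∀ p, ∃ y, |(Gv lam (dig α) p y).2.1| < 2 := by
    intro p
    obtain ⟨y, hy⟩ := exists_zero hlam hα.1 hα.2 hαi p
    refine ⟨y, ?_⟩
    have : (Gv lam (dig α) p y).2.1 = 0 := hy
    rw [this, abs_zero]
    norm_num
  have hzb : ∀ p, ∃ y, |(Gv lam (dig β) p y).2.1| < 2 := by
    intro p
    obtain ⟨y, hy⟩ := exists_zero hlam hβ.1 hβ.2 hβi p
    refine ⟨y, ?_⟩
    have : (Gv lam (dig β) p y).2.1 = 0 := hy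
    rw [this, abs_zero]
    norm_num
  have hinf' : ∀ m : ℕ, ∃ n, m ≤ dig β n ∧ m ≤ dig β (n + 1) := by
    intro m
    obtain ⟨n, hn1, hn2⟩ := hinf (max m (∑ i ∈ Finset.range (s + 1), dig α i + 1))
    have hns : s ≤ n := by
      by_contra hcon
      push Not at hcon
      have h3 : dig α n ≤ ∑ i ∈ Finset.range (s + 1), dig α i :=
        Finset.single_le_sum (f := dig α) (fun i _ => Nat.zero_le _)
          (Finset.mem_range.mpr (by omega))
      have h4 := (le_max_right m (∑ i ∈ Finset.range (s + 1), dig α i + 1)).trans hn1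
      omega
    obtain ⟨j, rfl⟩ : ∃ j, n = s + j := ⟨n - s, by omega⟩
    refine ⟨t + j, ?_, ?_⟩
    · rw [← htail j]; exact (le_max_left _ _).trans hn1
    · rw [add_assoc, ← htail (j + 1), ← add_assoc]; exact (le_max_left _ _).trans hn2
  refine le_antisymm ?_ ?_
  · exact dimH_tail_le hlam ha hb (sa := s) (sb := t) (fun j => (htail j).symm) hinf hzb
  · exact dimH_tail_le hlam hb ha (sa := t) (sb := s) htail hinf' hza

end Pool.Agent.Sturm69
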