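import Pool.Agent.Sturm82.ThmB
import Pool.Agent.Sturm82.SpecApprox

/-!
Every trace polynomial of a Sturmian digit sequence has a real zero.
-/

set_option autoImplicit false

namespace Pool.Agent.Sturm69

open Pool.Agent.Sturm82 Matrix Complex

/-! ### Growth outside the spectrum -/

theorem X_ge {lam : ℝ} (hlam : 0 < lam) {b : ℕ → ℕ} (hb : ∀ n, 1 ≤ b n) {e : ℝ} (he : lam + 2 < e)
    (n : ℕ) : e - lam ≤ |X lam b e n| := by
  have he1 : |e| = e := abs_of_pos (by linarith)
  have he2 : |e - lam| = e - lam := abs_of_pos (by linarith)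
  have hgt : ∀ n, 2 < |(orb b (2, e, e - lam) n).2.1| := fun n => X_gt hlam hb he n
  have h1 : e - lam ≤ |X lam b e 1| := by
    obtain ⟨k, hk⟩ : ∃ k, b 0 = k + 1 := ⟨b 0 - 1, by have := hb 0; omega⟩
    have := Spec.esc_ge 2 e (e - lam) (by rw [he1]; linarith) (by rw [he2, abs_two]; linarith) k
    rw [he2] at this
    have e3 : X lam b e 1 = tseq 2 e (e - lam) (b 0) := rfl
    rw [e3, hk]
    exact this
  induction n with
  | zero =>
    have : X lam b e 0 = e := rfl
    rw [this, he1]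
    linarith
  | succ n ih =>
    cases n with
    | zero => exact h1
    | succ n =>
      have hE := Spec.escape_orb b hb (2, e, e - lam) (by simp) n (hgt n) (hgt (n + 1))
      obtain ⟨k, hk⟩ : ∃ k, b (n + 1) = k + 1 := ⟨b (n + 1) - 1, by have := hb (n + 1); omega⟩
      have h3 := Spec.esc_ge _ _ _ (hgt (n + 1)).le hE.2.2.1 k
      have e3 : X lam b e (n + 1 + 1) = tseq (orb b (2, e, e - lam) (n + 1)).1
          (orb b (2, e, e - lam) (n + 1)).2.1 (orb b (2, e, e - lam) (n + 1)).2.2
          (b (n + 1)) := rfl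
      rw [e3, hk]
      have h4 := hE.2.2.2
      have e5 : X lam b e (n + 1) = (orb b (2, e, e - lam) (n + 1)).2.1 := rfl
      rw [e5] at ih
      linarith

theorem X_gt_neg {lam : ℝ} (hlam : 0 < lam) {b : ℕ → ℕ} (hb : ∀ n, 1 ≤ b n) {e : ℝ} (he : e < -2)
    (n : ℕ) : 2 < |X lam b e n| := by
  have he0 : |e| = -e := abs_of_neg (by linarith)
  have he1 : |e - lam| = -(e - lam) := abs_of_neg (by linarith)
  have h1 : 2 < |(orb b (2, e, e - lam) 0).2.1| := by
    simp only [orb]
    rw [he0]; linarith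
  have h2 : 2 < |(orb b (2, e, e - lam) (0 + 1)).2.1| := by
    simp only [orb, step]
    have hg : |tseq 2 e (e - lam) 0| < |tseq 2 e (e - lam) (0 + 1)| := by
      simp only [tseq_zero, zero_add, tseq_one]
      rw [he1, abs_two]; linarith
    have h5 := tseq_mono (x := 2) (y := e) (z := e - lam) (by rw [he0]; linarith) hg
      (Nat.zero_le 1) (hb 0)
    rw [tseq_one, he1] at h5
    linarith
  exact escape hb (Or.inl (by simp)) h1 h2 (Nat.zero_le n)

/-! ### Zeros are real -/

theorem real_of_trace {lam : ℝ} {α : ℝ} (h0 : 0 < α) (h1 : α < 1) (hα : Irrational α) (N : ℕ)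
    (z : ℂ) (x : ℝ) (hx : |x| ≤ 2)
    (htr : (Spec.MM (lam : ℂ) z (dig α) (N + 2)).trace = (x : ℂ)) : z.im = 0 := by
  set q := Spec.Q (dig α) (N + 2) with hq
  have hq1 : 1 ≤ q := Spec.Q_pos (Spec.one_le_dig h0 h1 hα) (N + 1)
  have hp := Spec.prod_formula h0 h1 hα (lam : ℂ) z N
  obtain ⟨μ, hμ, z0, hz0, hz⟩ := Spec.exists_unimodular _
    (Spec.det_MM (lam : ℂ) z (dig α) (N + 2)) x htr hx
  rw [← hp] at hz
  set w : ℕ → (Fin 2 → ℂ) := fun k => Spec.W (Spec.gS (lam : ℂ) z α) 0 k *ᵥ z0 with hw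
  set U : ℕ → ℂ := fun k => w k 1 with hU
  have hw1 : ∀ k, w (k + 1) = Spec.gS (lam : ℂ) z α k *ᵥ w k := by
    intro k
    simp only [hw]
    rw [Spec.W, ← Matrix.mulVec_mulVec, zero_add]
  have hw10 : ∀ k, w (k + 1) 1 = w k 0 := by
    intro k
    rw [hw1, Spec.gS, Spec.Tm]
    simp [Matrix.mulVec, dotProduct, Fin.sum_univ_two]
  have hw00 : ∀ k, w (k + 1) 0 =
      (z - lam * ((Spec.sv α ((k : ℤ) + 1) : ℤ) : ℂ)) * w k 0 - w k 1 := by
    intro k
    rw [hw1, Spec.gS, Spec.Tm]
    simp [Matrix.mulVec, dotProduct, Fin.sum_univ_two]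
    ring
  have hrec : ∀ k, U (k + 2) =
      (z - ((lam * (Spec.sv α ((k : ℤ) + 1) : ℤ) : ℝ) : ℂ)) * U (k + 1) - U k := by
    intro k
    have e1 : U (k + 2) = w (k + 1) 0 := hw10 (k + 1)
    have e2 : U (k + 1) = w k 0 := hw10 k
    rw [e1, e2, hw00 k]
    push_cast
    rfl
  have hwq : w q = μ • w 0 := by
    have e0 : w 0 = z0 := Matrix.one_mulVec z0
    rw [e0]
    exact hz
  have hUq : U q = μ * U 0 := by
    simp only [hU]
    rw [hwq]; rfl
  have hUq1 : U (q + 1) = μ * U 1 := by
    have e1 : U (q + 1) = w q 0 := hw10 q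
    have e2 : U 1 = w 0 0 := hw10 0
    rw [e1, e2, hwq]; rfl
  -- the current
  set J : ℕ → ℝ := fun k => ((starRingEnd ℂ) (U k) * U (k + 1)).im with hJ
  have hJstep : ∀ k, J (k + 1) - J k = z.im * normSq (U (k + 1)) := by
    intro k
    simp only [hJ]
    rw [show k + 1 + 1 = k + 2 by ring, hrec k]
    simp only [mul_im, sub_im, sub_re, mul_re, conj_re, conj_im, ofReal_re, ofReal_im,
      normSq_apply]
    ring
  have hsum : J q - J 0 = z.im * ∑ k ∈ Finset.range q, normSq (U (k + 1)) := by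
    rw [← Finset.sum_range_sub J q, Finset.mul_sum]
    exact Finset.sum_congr rfl fun k _ => hJstep k
  have hJq : J q = J 0 := by
    simp only [hJ]
    rw [hUq, hUq1, map_mul]
    have hμ2 : (starRingEnd ℂ) μ * μ = 1 := by
      rw [← normSq_eq_conj_mul_self, normSq_eq_norm_sq, hμ]
      simp
    have : (starRingEnd ℂ) μ * (starRingEnd ℂ) (U 0) * (μ * U 1) =
        (starRingEnd ℂ) (U 0) * U 1 := by
      linear_combination ((starRingEnd ℂ) (U 0) * U 1) * hμ2
    rw [this, zero_add]
  by_contra him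
  have hzero : ∑ k ∈ Finset.range q, normSq (U (k + 1)) = 0 := by
    rw [hJq, sub_self] at hsum
    rcases mul_eq_zero.mp hsum.symm with h | h
    · exact absurd h him
    · exact h
  have hall := (Finset.sum_eq_zero_iff_of_nonneg (fun k _ => normSq_nonneg _)).mp hzero
  have hU1 : U 1 = 0 := normSq_eq_zero.mp (hall 0 (Finset.mem_range.mpr (by omega)))
  have hUq0 : U q = 0 := by
    have := normSq_eq_zero.mp (hall (q - 1) (Finset.mem_range.mpr (by omega)))
    rwa [Nat.sub_add_cancel hq1] at this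
  have hμ0 : μ ≠ 0 := by
    intro h
    rw [h, norm_zero] at hμ
    exact zero_ne_one hμ
  have hU0 : U 0 = 0 := by
    rw [hUq] at hUq0
    exact (mul_eq_zero.mp hUq0).resolve_left hμ0
  apply hz0
  have e0 : w 0 = z0 := Matrix.one_mulVec z0
  funext i
  fin_cases i
  · have e2 : U 1 = w 0 0 := hw10 0
    rw [e0] at e2
    show z0 0 = 0
    rw [← e2]
    exact hU1
  · have := hU0
    simp only [hU] at this
    rw [e0] at this
    exact this

theorem exists_zero {lam : ℝ} (hlam : 0 < lam) {α : ℝ} (h0 : 0 < α) (h1 : α < 1)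
    (hα : Irrational α) (p : ℕ) : ∃ y : ℝ, X lam (dig α) y p = 0 := by
  cases p with
  | zero => exact ⟨0, rfl⟩
  | succ N =>
    have hd := Spec.one_le_dig h0 h1 hα
    set P : Polynomial ℝ := (orb (dig α) (Polynomial.C 2, Polynomial.X,
      Polynomial.X - Polynomial.C lam) (N + 1)).2.1 with hPdef
    have hP : ∀ e, P.eval e = X lam (dig α) e (N + 1) := by
      intro e
      have := orb_map (Polynomial.evalRingHom e) (dig α) (Polynomial.C 2, Polynomial.X,
        Polynomial.X - Polynomial.C lam) (N + 1)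
      have h2 := congrArg (fun v => v.2.1) this
      simp only [tmap, Polynomial.coe_evalRingHom, Polynomial.eval_C, Polynomial.eval_X,
        Polynomial.eval_sub] at h2
      exact h2
    have hPc : ∀ z : ℂ, P.eval₂ ofRealHom z = (orb (dig α) (2, z, z - lam) (N + 1)).2.1 := by
      intro z
      have := orb_map (Polynomial.eval₂RingHom ofRealHom z) (dig α) (Polynomial.C 2, Polynomial.X,
        Polynomial.X - Polynomial.C lam) (N + 1)
      have h2 := congrArg (fun v => v.2.1) this
      simp only [tmap, Polynomial.coe_eval₂RingHom, Polynomial.eval₂_C, Polynomial.eval₂_X,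
        Polynomial.eval₂_sub, ofRealHom_eq_coe, ofReal_ofNat] at h2
      exact h2
    have hdeg : P.degree ≠ 0 := by
      intro h
      obtain ⟨c, hc⟩ : ∃ c, P = Polynomial.C c := ⟨_, Polynomial.eq_C_of_degree_eq_zero h⟩
      have h3 := X_ge hlam hd (e := lam + |c| + 3) (by have := abs_nonneg c; linarith) (N + 1)
      rw [← hP, hc, Polynomial.eval_C] at h3
      linarith
    obtain ⟨z, hz⟩ := IsAlgClosed.exists_eval₂_eq_zero ofRealHom P hdeg
    rw [hPc] at hz
    have htr : (Spec.MM (lam : ℂ) z (dig α) (N + 2)).trace = ((0 : ℝ) : ℂ) := by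
      have h4 := Spec.orb_eq_trace (lam : ℂ) z (dig α) (N + 1)
      have h5 := congrArg (fun v => v.2.1) h4
      simp only at h5
      rw [hz] at h5
      rw [ofReal_zero]
      exact h5.symm
    have him := real_of_trace h0 h1 hα N z 0 (by simp) htr
    refine ⟨z.re, ?_⟩
    have hzr : z = (z.re : ℂ) := by
      apply Complex.ext
      · simp
      · simpa using him
    rw [hzr, ← hPc] at hz
    have h6 : P.eval₂ ofRealHom ((z.re : ℝ) : ℂ) = ((P.eval z.re : ℝ) : ℂ) := by
      have := Polynomial.hom_eval₂ P (RingHom.id ℝ) ofRealHom z.re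
      simp only [Polynomial.eval₂_id, RingHom.comp_id, ofRealHom_eq_coe] at this
      exact this.symm
    rw [h6, hP] at hz
    exact_mod_cast hz

end Pool.Agent.Sturm69
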